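import Pool.Agent.HW7.Art

/-!
# The traces of the representations and the characteristic polynomials of a finite group
-/

set_option autoImplicit false

open Polynomial

namespace Pool.Agent.HW7

variable (G : Type) [Group G] [Fintype G]

/-- integral representations -/
abbrev Rep : Type := Σ n : ℕ, G →* Matrix (Fin n) (Fin n) ℤ

variable {G}

/-- traces as functions on the group -/
def trf (x : Rep G) : G → ℤ := fun g => (x.2 g).trace

/-- characteristic polynomials as functions on the group -/
noncomputable def cpf (x : Rep G) : G → ℤ[X] := fun g => (x.2 g).charpoly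

/-- constant polynomials -/
noncomputable def cst' : (G → ℤ) →ₗ[ℤ] (G → ℤ[X]) where
  toFun f g := C (f g)
  map_add' f f' := by funext g; simp
  map_smul' z f := by
    funext g
    simp [smul_eq_C_mul]

/-- the traces are spanned by finitely many of them -/
lemma exists_finset : ∃ s : Finset (Rep G), ∀ x : Rep G,
    trf x ∈ Submodule.span ℤ (trf '' (s : Set (Rep G))) := by
  have h1 : (Submodule.span ℤ (Set.range (trf (G := G)))).FG := IsNoetherian.noetherian _
  obtain ⟨s', hs', h2⟩ := (Submodule.fg_span_iff_fg_span_finset_subset _).1 h1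
  classical
  choose! f hf using fun (y : G → ℤ) (hy : y ∈ s') => hs' hy
  refine ⟨s'.image f, fun x => ?_⟩
  have h3 : trf x ∈ Submodule.span ℤ (s' : Set (G → ℤ)) := by
    rw [← h2]
    exact Submodule.subset_span ⟨x, rfl⟩
  refine Submodule.span_mono ?_ h3
  intro y hy
  exact ⟨f y, by simpa using ⟨y, hy, rfl⟩, hf y hy⟩

omit [Fintype G] in
/-- the expansion of the characteristic polynomial -/
lemma cpf_eq (x : Rep G) : ∃ e : ℕ → Rep G, (trf (e 0) = fun _ => 1) ∧ (0 < x.1 → trf (e 1) = trf x) ∧
    cpf x = ∑ i ∈ Finset.range (x.1 + 1), ((-1 : ℤ[X]) ^ i * X ^ (x.1 - i)) • cst' (trf (e i)) := by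
  obtain ⟨n, ρ⟩ := x
  have hx : ∀ i : ℕ, ∃ y : Rep G, i ≤ n →
      ∀ g, (y.2 g).trace = (-1) ^ i * (ρ g).charpoly.coeff (n - i) := by
    intro i
    by_cases hi : i ≤ n
    · obtain ⟨m, ρ', h⟩ := exists_ext ρ i hi
      exact ⟨⟨m, ρ'⟩, fun _ => h⟩
    · exact ⟨⟨1, 1⟩, fun h => absurd h hi⟩
  choose e he using hx
  refine ⟨e, ?_, ?_, ?_⟩
  · funext g
    show ((e 0).2 g).trace = 1
    rw [he 0 (Nat.zero_le n) g]
    have h2 : (ρ g).charpoly.coeff n = 1 := by
      have h3 := (Matrix.charpoly_monic (ρ g)).coeff_natDegree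
      rwa [Matrix.charpoly_natDegree_eq_dim, Fintype.card_fin] at h3
    rw [Nat.sub_zero, h2]
    simp
  · intro hn
    funext g
    show ((e 1).2 g).trace = (ρ g).trace
    have : Nonempty (Fin n) := ⟨⟨0, hn⟩⟩
    rw [he 1 hn g, Matrix.trace_eq_neg_charpoly_coeff, Fintype.card_fin]
    simp
  · funext g
    show (ρ g).charpoly = _
    have hd : (ρ g).charpoly.natDegree = n := by
      rw [Matrix.charpoly_natDegree_eq_dim, Fintype.card_fin]
    conv_lhs => rw [(ρ g).charpoly.as_sum_range_C_mul_X_pow, hd, ← Finset.sum_range_reflect]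
    rw [Finset.sum_apply]
    refine Finset.sum_congr rfl fun i hi => ?_
    have hi : i < n + 1 := Finset.mem_range.1 hi
    have h1 : n + 1 - 1 - i = n - i := by omega
    have h2 : ((-1 : ℤ) ^ i * (-1 : ℤ) ^ i) = 1 := by rw [← mul_pow]; norm_num
    show _ = ((-1 : ℤ[X]) ^ i * X ^ (n - i)) * C ((e i).2 g).trace
    rw [he i (by omega) g, h1]
    have h3 : C ((ρ g).charpoly.coeff (n - i)) = (-1 : ℤ[X]) ^ i *
        C ((-1) ^ i * (ρ g).charpoly.coeff (n - i)) := by
      rw [map_mul, map_pow, map_neg, map_one, ← mul_assoc, ← mul_pow]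
      norm_num
    rw [h3]
    ring

/-- the quotient of the functions by the characteristic polynomials, and the classes in it -/
lemma aeval_restrict {Q : Type} [AddCommGroup Q] [Module ℤ[X] Q] (N : Submodule ℤ Q)
    (f : Module.End ℤ N) (hf : ∀ v : N, ((f v : N) : Q) = (X : ℤ[X]) • (v : Q)) (p : ℤ[X]) (v : N) :
    (((aeval f p) v : N) : Q) = p • (v : Q) := by
  induction p using Polynomial.induction_on' with
  | add p q hp hq =>
    rw [map_add, LinearMap.add_apply, Submodule.coe_add, hp, hq, add_smul]
  | monomial n a =>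
    rw [aeval_monomial]
    have h1 : ∀ n : ℕ, ∀ v : N, (((f ^ n) v : N) : Q) = (X ^ n : ℤ[X]) • (v : Q) := by
      intro n
      induction n with
      | zero => intro v; simp
      | succ n ih =>
        intro v
        rw [pow_succ, Module.End.mul_apply, ih, hf, smul_smul, pow_succ]
    rw [Module.End.mul_apply, ← C_mul_X_pow_eq_monomial, mul_smul, ← h1 n v]
    have h2 : ∀ w : N, (((algebraMap ℤ (Module.End ℤ N) a) w : N) : Q) = (C a : ℤ[X]) • (w : Q) := by
      intro w
      rw [Module.algebraMap_end_apply]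
      have h3 : (C a : ℤ[X]) • (w : Q) = a • (w : Q) := by
        have : (C a : ℤ[X]) = ((a : ℤ) : ℤ[X]) := by simp
        rw [this, Int.cast_smul_eq_zsmul]
      rw [h3]
      rfl
    exact h2 _

variable (G)

/-- **Finitely many lattices are enough.** -/
theorem exists_formula : ∃ (s : Finset (Rep G)) (P : ℤ[X]), P.Monic ∧ ∀ x : Rep G,
    P • cst' (trf x) ∈ Submodule.span ℤ[X] (cpf '' (s : Set (Rep G))) := by
  classical
  obtain ⟨s0, hs0⟩ := exists_finset (G := G)
  let z0 : Rep G := ⟨0, 1⟩
  let s : Finset (Rep G) := insert z0 s0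
  let D : ℕ := s0.sup fun x => x.1
  let U : Submodule ℤ[X] (G → ℤ[X]) := Submodule.span ℤ[X] (cpf '' (s : Set (Rep G)))
  have hU : ∀ x ∈ s, cpf x ∈ U := fun x hx => Submodule.subset_span ⟨x, hx, rfl⟩
  have hone : cst' (G := G) (fun _ => 1) ∈ U := by
    have h1 : cst' (G := G) (fun _ => 1) = cpf z0 := by
      funext g
      show (C 1 : ℤ[X]) = Matrix.charpoly _
      unfold Matrix.charpoly
      rw [Matrix.det_isEmpty, map_one]
    rw [h1]
    exact hU z0 (Finset.mem_insert_self _ _)
  let Q : Type := (G → ℤ[X]) ⧸ U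
  let π : (G → ℤ[X]) →ₗ[ℤ[X]] Q := U.mkQ
  have hπ : ∀ u ∈ U, π u = 0 := fun u hu => (Submodule.Quotient.mk_eq_zero U).2 hu
  let N : Submodule ℤ Q := Submodule.span ℤ
    ((fun y : ℕ × Rep G => π ((X ^ y.1 : ℤ[X]) • cst' (trf y.2))) ''
      ((Finset.range D ×ˢ s0 : Finset (ℕ × Rep G)) : Set (ℕ × Rep G)))
  have hNfg : N.FG := Submodule.fg_span ((Finset.finite_toSet _).image _)
  -- extension to all representations
  have hext : ∀ m : ℕ, (∀ x ∈ s0, π ((X ^ m : ℤ[X]) • cst' (trf x)) ∈ N) →
      ∀ z : Rep G, π ((X ^ m : ℤ[X]) • cst' (trf z)) ∈ N := by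
    intro m hm z
    have key : ∀ f ∈ Submodule.span ℤ (trf '' (s0 : Set (Rep G))),
        π ((X ^ m : ℤ[X]) • cst' f) ∈ N := by
      intro f hf
      induction hf using Submodule.span_induction with
      | mem f hf =>
        obtain ⟨x, hx, rfl⟩ := hf
        exact hm x hx
      | zero => rw [map_zero, smul_zero, map_zero]; exact N.zero_mem
      | add f f' _ _ h h' => rw [map_add, smul_add, map_add]; exact N.add_mem h h'
      | smul a f _ h =>
        rw [(cst' (G := G)).map_smul a f, smul_comm, map_zsmul]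
        exact N.smul_mem a h
    exact key _ (hs0 z)
  have hmain : ∀ m : ℕ, ∀ z : Rep G, π ((X ^ m : ℤ[X]) • cst' (trf z)) ∈ N := by
    intro m
    induction m using Nat.strong_induction_on with
    | _ m ih =>
      refine hext m fun x hx => ?_
      by_cases hmD : m < D
      · refine Submodule.subset_span ⟨(m, x), ?_, rfl⟩
        simp [hmD, hx]
      · have hxD : x.1 ≤ D := Finset.le_sup (f := fun x : Rep G => x.1) hx
        rcases Nat.eq_zero_or_pos x.1 with h0 | hpos
        · have ht : trf x = 0 := by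
            obtain ⟨n, ρ⟩ := x
            simp only at h0
            subst h0
            funext g
            show (ρ g).trace = 0
            simp [Matrix.trace]
          rw [ht, map_zero, smul_zero, map_zero]
          exact N.zero_mem
        · obtain ⟨e, he0, he1, he⟩ := cpf_eq x
          obtain ⟨n', hn'⟩ : ∃ n', x.1 = n' + 1 := ⟨x.1 - 1, by omega⟩
          have h1 : (X ^ n' : ℤ[X]) • cst' (trf x) = (X ^ (n' + 1) : ℤ[X]) • cst' (fun _ => 1) - cpf x +
              ∑ i ∈ Finset.range n', ((-1 : ℤ[X]) ^ (i + 2) * X ^ (n' - 1 - i)) •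
                cst' (trf (e (i + 2))) := by
            rw [he, hn', Finset.sum_range_succ', Finset.sum_range_succ', he0, he1 hpos]
            have e2 : ∀ i ∈ Finset.range n', ((-1 : ℤ[X]) ^ (i + 1 + 1) * X ^ (n' + 1 - (i + 1 + 1))) •
                cst' (trf (e (i + 1 + 1))) = ((-1 : ℤ[X]) ^ (i + 2) * X ^ (n' - 1 - i)) •
                cst' (trf (e (i + 2))) := by
              intro i hi
              rw [Finset.mem_range] at hi
              have : n' + 1 - (i + 1 + 1) = n' - 1 - i := by omega
              rw [this]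
            rw [Finset.sum_congr rfl e2]
            simp only [zero_add, pow_zero, pow_one, one_mul, Nat.add_sub_cancel, Nat.sub_zero, neg_mul,
              neg_smul]
            abel
          have h2 : π ((X ^ m : ℤ[X]) • cst' (trf x)) =
              ∑ i ∈ Finset.range n', (-1 : ℤ) ^ (i + 2) •
                π ((X ^ (m - 1 - i) : ℤ[X]) • cst' (trf (e (i + 2)))) := by
            have h3 : (X ^ m : ℤ[X]) • cst' (trf x) = (X ^ (m - n') : ℤ[X]) •
                ((X ^ n' : ℤ[X]) • cst' (trf x)) := by
              rw [smul_smul, ← pow_add, Nat.sub_add_cancel (by omega)]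
            rw [h3, h1, map_smul, map_add, map_sub, hπ _ (U.smul_mem _ hone),
              hπ _ (hU x (Finset.mem_insert_of_mem hx)), sub_zero, zero_add, map_sum,
              Finset.smul_sum]
            refine Finset.sum_congr rfl fun i hi => ?_
            rw [Finset.mem_range] at hi
            rw [← map_smul, smul_smul, ← map_zsmul]
            congr 1
            have h4 : (X : ℤ[X]) ^ (m - n') * ((-1) ^ (i + 2) * X ^ (n' - 1 - i)) =
                (-1) ^ (i + 2) * X ^ (m - 1 - i) := by
              have : m - 1 - i = (m - n') + (n' - 1 - i) := by omega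
              rw [this, pow_add]
              ring
            rw [h4, mul_smul]
            have h5 : ((-1 : ℤ[X]) ^ (i + 2)) = (((-1 : ℤ) ^ (i + 2) : ℤ) : ℤ[X]) := by
              push_cast; ring
            rw [h5, Int.cast_smul_eq_zsmul]
          rw [h2]
          refine N.sum_mem fun i hi => N.smul_mem _ (ih _ ?_ _)
          rw [Finset.mem_range] at hi
          omega
  -- multiplication by `X`
  have hX : ∀ v ∈ N, (X : ℤ[X]) • v ∈ N := by
    intro v hv
    induction hv using Submodule.span_induction with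
    | mem v hv =>
      obtain ⟨⟨i, x⟩, -, rfl⟩ := hv
      show (X : ℤ[X]) • π ((X ^ i : ℤ[X]) • cst' (trf x)) ∈ N
      rw [← map_smul, smul_smul, ← pow_succ']
      exact hmain _ _
    | zero => rw [smul_zero]; exact N.zero_mem
    | add f f' _ _ h h' => rw [smul_add]; exact N.add_mem h h'
    | smul a f _ h =>
      rw [smul_comm]
      exact N.smul_mem a h
  let f : Module.End ℤ N :=
    { toFun := fun v => ⟨(X : ℤ[X]) • (v : Q), hX v v.2⟩
      map_add' := fun v w => Subtype.ext (smul_add _ _ _)
      map_smul' := fun a v => Subtype.ext (smul_comm _ _ _) }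
  have : Module.Finite ℤ N := Module.Finite.iff_fg.2 hNfg
  obtain ⟨P, hP, hP0⟩ := LinearMap.exists_monic_and_aeval_eq_zero ℤ f
  refine ⟨s, P, hP, fun x => ?_⟩
  have h1 : π (cst' (trf x)) ∈ N := by
    have := hmain 0 x
    rwa [pow_zero, one_smul] at this
  have h2 := aeval_restrict N f (fun v => rfl) P ⟨_, h1⟩
  rw [hP0] at h2
  have h3 : π (P • cst' (trf x)) = 0 := by
    rw [map_smul]
    exact h2.symm
  exact (Submodule.Quotient.mk_eq_zero U).1 h3

end Pool.Agent.HW7
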