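import Mathlib

/-!
Exterior powers of an integral matrix representation: the trace of the `i`-th exterior power is
`(-1)^i` times the coefficient of the characteristic polynomial.
-/

namespace Pool.Agent.HW7

open Matrix Module

noncomputable section

/-- the `i`-th compound matrix, as the matrix of the `i`-th exterior power -/
def ext (n i : ℕ) (M : Matrix (Fin n) (Fin n) ℤ) :
    Matrix (Set.powersetCard (Fin n) i) (Set.powersetCard (Fin n) i) ℤ :=
  LinearMap.toMatrix ((Pi.basisFun ℤ (Fin n)).exteriorPower i)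
    ((Pi.basisFun ℤ (Fin n)).exteriorPower i) (exteriorPower.map i (Matrix.toLin' M))

theorem ext_one (n i : ℕ) : ext n i 1 = 1 := by
  unfold ext
  rw [Matrix.toLin'_one, exteriorPower.map_id, LinearMap.toMatrix_id]

theorem ext_mul (n i : ℕ) (M N : Matrix (Fin n) (Fin n) ℤ) :
    ext n i (M * N) = ext n i M * ext n i N := by
  unfold ext
  rw [Matrix.toLin'_mul, exteriorPower.map_comp, ← LinearMap.toMatrix_comp]

theorem ext_diag (n i : ℕ) (M : Matrix (Fin n) (Fin n) ℤ) (s : Set.powersetCard (Fin n) i) :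
    ext n i M s s = (M.submatrix (Subtype.val : s.1 → Fin n) (Subtype.val : s.1 → Fin n)).det := by
  unfold ext
  rw [LinearMap.toMatrix_apply, exteriorPower.basis_repr_apply, exteriorPower.basis_apply,
    exteriorPower.map_apply_ιMulti_family, exteriorPower.ιMulti_family,
    exteriorPower.ιMultiDual_apply_ιMulti]
  have h : (Matrix.of fun (a b : Fin i) =>
      (Pi.basisFun ℤ (Fin n)).coord (Set.powersetCard.ofFinEmbEquiv.symm s b)
        (((⇑(Matrix.toLin' M) ∘ ⇑(Pi.basisFun ℤ (Fin n))) ∘
          ⇑(Set.powersetCard.ofFinEmbEquiv.symm s)) a)) =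
      ((M.submatrix (Subtype.val : s.1 → Fin n) (Subtype.val : s.1 → Fin n)).submatrix
        (Set.powersetCard.orderIsoOfFin s).toEquiv (Set.powersetCard.orderIsoOfFin s).toEquiv)ᵀ := by
    ext a b
    simp [Matrix.toLin'_apply, Pi.basisFun_apply, Basis.coord_apply, Pi.basisFun_repr,
      Set.powersetCard.ofFinEmbEquiv_symm_apply, Set.powersetCard.orderIsoOfFin]
  rw [h, Matrix.det_transpose, Matrix.det_submatrix_equiv_self]

theorem ext_trace (n i : ℕ) (hi : i ≤ n) (M : Matrix (Fin n) (Fin n) ℤ) :
    (ext n i M).trace = (-1) ^ i * M.charpoly.coeff (n - i) := by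
  have h := Matrix.charpoly_coeff_eq_sum_minors M i (by simpa using hi)
  rw [Fintype.card_fin] at h
  rw [h, ← mul_assoc, ← mul_pow, neg_one_mul, neg_neg, one_pow, one_mul, Matrix.trace]
  simp only [Matrix.diag_apply, ext_diag]
  symm
  refine Finset.sum_bij' (fun s hs => (⟨s, (Finset.mem_powersetCard.mp hs).2⟩ :
    Set.powersetCard (Fin n) i)) (fun s _ => s.1) ?_ ?_ ?_ ?_ ?_
  · intro s hs
    exact Finset.mem_univ _
  · intro s _
    exact Finset.mem_powersetCard.mpr ⟨Finset.subset_univ _, s.2⟩
  · intro s _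
    rfl
  · intro s _
    rfl
  · intro s _
    rfl

/-- **Exterior powers of an integral matrix representation.** -/
theorem exists_ext {G : Type*} [Monoid G] {n : ℕ} (ρ : G →* Matrix (Fin n) (Fin n) ℤ) (i : ℕ)
    (hi : i ≤ n) :
    ∃ (m : ℕ) (ρ' : G →* Matrix (Fin m) (Fin m) ℤ),
      ∀ g, (ρ' g).trace = (-1) ^ i * (ρ g).charpoly.coeff (n - i) := by
  let e : Set.powersetCard (Fin n) i ≃ Fin (Fintype.card (Set.powersetCard (Fin n) i)) :=
    Fintype.equivFin _
  refine ⟨Fintype.card (Set.powersetCard (Fin n) i),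
    { toFun := fun g => Matrix.reindex e e (ext n i (ρ g))
      map_one' := by
        rw [map_one, ext_one]
        simp
      map_mul' := by
        intro a b
        rw [map_mul, ext_mul]
        simp only [Matrix.reindex_apply]
        rw [Matrix.submatrix_mul_equiv] }, ?_⟩
  intro g
  have : (Matrix.reindex e e (ext n i (ρ g))).trace = (ext n i (ρ g)).trace := by
    rw [Matrix.trace, Matrix.trace]
    exact Equiv.sum_comp e.symm (fun s => ext n i (ρ g) s s)
  exact this.trans (ext_trace n i hi (ρ g))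

end

end Pool.Agent.HW7
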