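import Pool.Agent.HW.Glue
import Pool.Agent.Helper29.Zeta.Poly
import Pool.Agent.HW7.Ext

/-!
Recursion over the exterior powers of a lattice.
-/

set_option autoImplicit false

open Pool.Agent.Helper29.Zeta Pool.Agent.HW

namespace Pool.Agent.HW7

/-- classes of functions closed under the elementary operations -/
structure Cls (P : (ℕ → ℂ) → Prop) : Prop where
  congr : ∀ c c' : ℕ → ℂ, (∀ n, IsPrimePow n → c' n = c n) → P c → P c'
  zero : P (fun _ => 0)
  add : ∀ c c' : ℕ → ℂ, P c → P c' → P (fun n => c n + c' n)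
  neg : ∀ c : ℕ → ℂ, P c → P (fun n => - c n)
  shift : ∀ c : ℕ → ℂ, P c → P (fun n => (n : ℂ) * c n)
  unshift : ∀ c : ℕ → ℂ, P (fun n => (n : ℂ) * c n) → P c

/-- approximation up to `n ^ x` -/
def Ap (P : (ℕ → ℂ) → Prop) (x : ℝ) (c : ℕ → ℂ) : Prop :=
  ∃ r, P r ∧ ∃ C : ℝ, ∀ n : ℕ, IsPrimePow n → ‖c n - r n‖ ≤ C * (n : ℝ) ^ x

variable {P : (ℕ → ℂ) → Prop}

lemma Cls.shift_pow (hP : Cls P) {c : ℕ → ℂ} (h : P c) (j : ℕ) :
    P (fun n => (n : ℂ) ^ j * c n) := by
  induction j with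
  | zero => simpa using h
  | succ j ih =>
    refine hP.congr _ _ (fun n _ => ?_) (hP.shift _ ih)
    ring

lemma Cls.unshift_pow (hP : Cls P) {c : ℕ → ℂ} (j : ℕ) (h : P (fun n => (n : ℂ) ^ j * c n)) :
    P c := by
  induction j with
  | zero => simpa using h
  | succ j ih =>
    refine ih (hP.unshift _ (hP.congr _ _ (fun n _ => ?_) h))
    ring

lemma npos {n : ℕ} (hn : IsPrimePow n) : (0 : ℝ) < n := by exact_mod_cast hn.pos

lemma one_le {n : ℕ} (hn : IsPrimePow n) : (1 : ℝ) ≤ n := by exact_mod_cast hn.pos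

lemma Ap.of {x : ℝ} {c : ℕ → ℂ} (h : P c) : Ap P x c :=
  ⟨c, h, 0, fun n _ => by simp⟩

lemma Ap.congr {x : ℝ} {c c' : ℕ → ℂ} (h : Ap P x c) (hc : ∀ n, IsPrimePow n → c' n = c n) :
    Ap P x c' := by
  obtain ⟨r, hr, C, hC⟩ := h
  exact ⟨r, hr, C, fun n hn => by rw [hc n hn]; exact hC n hn⟩

lemma Ap.mono {x y : ℝ} {c : ℕ → ℂ} (h : Ap P x c) (hxy : x ≤ y) : Ap P y c := by
  obtain ⟨r, hr, C, hC⟩ := h
  refine ⟨r, hr, |C|, fun n hn => (hC n hn).trans ?_⟩
  refine mul_le_mul (le_abs_self C) (Real.rpow_le_rpow_of_exponent_le (one_le hn) hxy)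
    (Real.rpow_nonneg (npos hn).le _) (abs_nonneg C)

lemma Ap.add (hP : Cls P) {x : ℝ} {c c' : ℕ → ℂ} (h : Ap P x c) (h' : Ap P x c') :
    Ap P x (fun n => c n + c' n) := by
  obtain ⟨r, hr, C, hC⟩ := h
  obtain ⟨r', hr', C', hC'⟩ := h'
  refine ⟨_, hP.add _ _ hr hr', C + C', fun n hn => ?_⟩
  have e : c n + c' n - (r n + r' n) = (c n - r n) + (c' n - r' n) := by ring
  rw [e, add_mul]
  exact (norm_add_le _ _).trans (add_le_add (hC n hn) (hC' n hn))

lemma Ap.neg (hP : Cls P) {x : ℝ} {c : ℕ → ℂ} (h : Ap P x c) : Ap P x (fun n => - c n) := by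
  obtain ⟨r, hr, C, hC⟩ := h
  refine ⟨_, hP.neg _ hr, C, fun n hn => ?_⟩
  have e : - c n - - r n = - (c n - r n) := by ring
  rw [e, norm_neg]
  exact hC n hn

lemma Ap.shift (hP : Cls P) {x : ℝ} {c : ℕ → ℂ} (h : Ap P x c) (j : ℕ) :
    Ap P (x + j) (fun n => (n : ℂ) ^ j * c n) := by
  obtain ⟨r, hr, C, hC⟩ := h
  refine ⟨_, hP.shift_pow hr j, C, fun n hn => ?_⟩
  have e : (n : ℂ) ^ j * c n - (n : ℂ) ^ j * r n = (n : ℂ) ^ j * (c n - r n) := by ring
  rw [e, norm_mul, norm_pow, Complex.norm_natCast, Real.rpow_add (npos hn), Real.rpow_natCast]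
  calc (n : ℝ) ^ j * ‖c n - r n‖ ≤ (n : ℝ) ^ j * (C * (n : ℝ) ^ x) :=
        mul_le_mul_of_nonneg_left (hC n hn) (by positivity)
    _ = _ := by ring

lemma Ap.unshift (hP : Cls P) {x : ℝ} {c : ℕ → ℂ} (j : ℕ)
    (h : Ap P (x + j) (fun n => (n : ℂ) ^ j * c n)) : Ap P x c := by
  obtain ⟨r, hr, C, hC⟩ := h
  refine ⟨fun n => r n / (n : ℂ) ^ j, hP.unshift_pow j (hP.congr _ _ (fun n hn => ?_) hr), C,
    fun n hn => ?_⟩
  · have hn0 : (n : ℂ) ≠ 0 := by exact_mod_cast hn.pos.ne'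
    field_simp
  · have hn0 : (n : ℂ) ≠ 0 := by exact_mod_cast hn.pos.ne'
    have e : c n - r n / (n : ℂ) ^ j = ((n : ℂ) ^ j * c n - r n) / (n : ℂ) ^ j := by
      field_simp
    rw [e, norm_div, norm_pow, Complex.norm_natCast, div_le_iff₀ (by have := npos hn; positivity)]
    have h1 := hC n hn
    rw [Real.rpow_add (npos hn), Real.rpow_natCast] at h1
    calc _ ≤ _ := h1
      _ = _ := by ring

lemma Ap.zero (hP : Cls P) {x : ℝ} {c : ℕ → ℂ} {C : ℝ}
    (h : ∀ n : ℕ, IsPrimePow n → ‖c n‖ ≤ C * (n : ℝ) ^ x) : Ap P x c :=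
  ⟨_, hP.zero, C, fun n hn => by rw [sub_zero]; exact h n hn⟩

lemma Ap.sum (hP : Cls P) {x : ℝ} {T : Type*} (s : Finset T) {c : T → ℕ → ℂ}
    (h : ∀ t ∈ s, Ap P x (c t)) : Ap P x (fun n => ∑ t ∈ s, c t n) := by
  classical
  induction s using Finset.induction_on with
  | empty =>
    refine Ap.congr (Ap.of hP.zero) (fun n _ => ?_)
    simp
  | insert a s ha ih =>
    refine Ap.congr (Ap.add hP (h a (Finset.mem_insert_self a s))
      (ih fun t ht => h t (Finset.mem_insert_of_mem ht))) (fun n _ => ?_)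
    rw [Finset.sum_insert ha]

section recursion

variable {G : Type} [Group G] [Fintype G]

/-- the average of `T g` against the trace -/
noncomputable def av (T : G → ℕ → ℕ) {n : ℕ} (ρ : G →* Matrix (Fin n) (Fin n) ℤ) (q : ℕ) : ℂ :=
  (∑ g : G, ((ρ g).trace : ℂ) * (T g q : ℂ)) / (Fintype.card G : ℂ)

lemma eval_charpoly_sum {n : ℕ} (M : Matrix (Fin n) (Fin n) ℤ) (q : ℤ) :
    M.charpoly.eval q = ∑ i ∈ Finset.range (n + 1), M.charpoly.coeff (n - i) * q ^ (n - i) := by
  have hd : M.charpoly.natDegree = n := by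
    rw [Matrix.charpoly_natDegree_eq_dim, Fintype.card_fin]
  rw [Polynomial.eval_eq_sum_range, hd, ← Finset.sum_range_reflect]
  refine Finset.sum_congr rfl fun i hi => ?_
  rw [Finset.mem_range] at hi
  have : n + 1 - 1 - i = n - i := by omega
  rw [this]

/-- **the recursion** -/
theorem recursion (hP : Cls P) (T : G → ℕ → ℕ)
    (hone : P (av T (1 : G →* Matrix (Fin 1) (Fin 1) ℤ)))
    (hcount : ∀ (n : ℕ) (ρ : G →* Matrix (Fin n) (Fin n) ℤ),
      P (fun q => ((∑ g : G, (T g q : ℤ) * (ρ g).charpoly.eval (q : ℤ) : ℤ) : ℂ) /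
        (Fintype.card G : ℂ)))
    {C K : ℕ} (hT : ∀ q, IsPrimePow q → ∀ g : G, T g q ≤ C * q ^ K) (k : ℕ) :
    ∀ (n : ℕ) (ρ : G →* Matrix (Fin n) (Fin n) ℤ), Ap P ((K : ℝ) - k) (av T ρ) := by
  induction k with
  | zero =>
    intro n ρ
    refine Ap.zero hP (C := (∑ g : G, ‖((ρ g).trace : ℂ)‖ * C) / (Fintype.card G : ℝ))
      (fun q hq => ?_)
    unfold av
    rw [norm_div, Complex.norm_natCast, Nat.cast_zero, sub_zero, Real.rpow_natCast, div_mul_eq_mul_div]
    refine div_le_div_of_nonneg_right ?_ (by positivity)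
    rw [Finset.sum_mul]
    refine (norm_sum_le _ _).trans (Finset.sum_le_sum fun g _ => ?_)
    rw [norm_mul, Complex.norm_natCast, mul_assoc]
    refine mul_le_mul_of_nonneg_left ?_ (norm_nonneg _)
    exact_mod_cast hT q hq g
  | succ k ih =>
    intro n ρ
    rcases Nat.eq_zero_or_pos n with hn | hn
    · subst hn
      refine Ap.congr (Ap.of hP.zero) (fun q _ => ?_)
      unfold av
      simp [Matrix.trace]
    · have hx : ∀ i : ℕ, ∃ (m : ℕ) (ρ' : G →* Matrix (Fin m) (Fin m) ℤ), i ≤ n →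
          ∀ g, (ρ' g).trace = (-1) ^ i * (ρ g).charpoly.coeff (n - i) := by
        intro i
        by_cases hi : i ≤ n
        · obtain ⟨m, ρ', h⟩ := exists_ext ρ i hi
          exact ⟨m, ρ', fun _ => h⟩
        · exact ⟨1, 1, fun h => absurd h hi⟩
      choose m ρ' hρ' using hx
      -- the terms of the count
      have hc : (Fintype.card G : ℂ) ≠ 0 := by exact_mod_cast Fintype.card_ne_zero
      have key : ∀ q : ℕ, ((∑ g : G, (T g q : ℤ) * (ρ g).charpoly.eval (q : ℤ) : ℤ) : ℂ) /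
          (Fintype.card G : ℂ) = ∑ i ∈ Finset.range (n + 1), (-1) ^ i * ((q : ℂ) ^ (n - i) *
            av T (ρ' i) q) := by
        intro q
        have e1 : ∀ i ∈ Finset.range (n + 1), (-1 : ℂ) ^ i * ((q : ℂ) ^ (n - i) *
            av T (ρ' i) q) = (∑ g : G, (T g q : ℂ) * (((ρ g).charpoly.coeff (n - i) : ℂ) *
              (q : ℂ) ^ (n - i))) / (Fintype.card G : ℂ) := by
          intro i hi
          rw [Finset.mem_range] at hi
          unfold av
          rw [← mul_div_assoc, ← mul_div_assoc, Finset.mul_sum, Finset.mul_sum]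
          congr 1
          refine Finset.sum_congr rfl fun g _ => ?_
          rw [hρ' i (by omega) g]
          push_cast
          have h1 : (-1 : ℂ) ^ i * (-1 : ℂ) ^ i = 1 := by rw [← mul_pow]; norm_num
          linear_combination ((q : ℂ) ^ (n - i) * ((ρ g).charpoly.coeff (n - i) : ℂ) * (T g q : ℂ)) * h1
        rw [Finset.sum_congr rfl e1, ← Finset.sum_div, Finset.sum_comm]
        congr 1
        push_cast
        refine Finset.sum_congr rfl fun g _ => ?_
        rw [← Finset.mul_sum, eval_charpoly_sum]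
        push_cast
        rfl
      -- split off the first two terms
      obtain ⟨n', rfl⟩ : ∃ n', n = n' + 1 := ⟨n - 1, by omega⟩
      have h0 : ∀ q, av T (ρ' 0) q = av T (1 : G →* Matrix (Fin 1) (Fin 1) ℤ) q := by
        intro q
        unfold av
        congr 1
        refine Finset.sum_congr rfl fun g _ => ?_
        rw [hρ' 0 (by omega) g]
        have h2 : (ρ g).charpoly.coeff (n' + 1) = 1 := by
          have h3 := (Matrix.charpoly_monic (ρ g)).coeff_natDegree
          rwa [Matrix.charpoly_natDegree_eq_dim, Fintype.card_fin] at h3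
        rw [Nat.sub_zero, h2]
        simp
      have h1 : ∀ q, av T (ρ' 1) q = av T ρ q := by
        intro q
        unfold av
        congr 1
        refine Finset.sum_congr rfl fun g _ => ?_
        rw [hρ' 1 (by omega) g, Matrix.trace_eq_neg_charpoly_coeff, Fintype.card_fin]
        simp
      have hmain : ∀ q : ℕ, IsPrimePow q → (q : ℂ) ^ n' * av T ρ q =
          ((q : ℂ) ^ (n' + 1) * av T (1 : G →* Matrix (Fin 1) (Fin 1) ℤ) q +
            - (((∑ g : G, (T g q : ℤ) * (ρ g).charpoly.eval (q : ℤ) : ℤ) : ℂ) /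
              (Fintype.card G : ℂ))) +
            ∑ i ∈ Finset.range n', (-1) ^ (i + 2) * ((q : ℂ) ^ (n' - 1 - i) * av T (ρ' (i + 2)) q) := by
        intro q _
        rw [key q, Finset.sum_range_succ', Finset.sum_range_succ', h0, h1]
        have e2 : ∀ i ∈ Finset.range n', (-1 : ℂ) ^ (i + 1 + 1) * ((q : ℂ) ^ (n' + 1 - (i + 1 + 1)) *
            av T (ρ' (i + 1 + 1)) q) = (-1) ^ (i + 2) * ((q : ℂ) ^ (n' - 1 - i) *
              av T (ρ' (i + 2)) q) := by
          intro i hi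
          rw [Finset.mem_range] at hi
          have : n' + 1 - (i + 1 + 1) = n' - 1 - i := by omega
          rw [this]
        rw [Finset.sum_congr rfl e2]
        simp only [zero_add, pow_zero, pow_one, one_mul, Nat.add_sub_cancel, Nat.sub_zero]
        ring
      refine Ap.unshift hP n' (Ap.congr (Ap.add hP (Ap.of ?_) (Ap.sum hP _ ?_)) hmain)
      · exact hP.add _ _ (hP.shift_pow hone (n' + 1)) (hP.neg _ (hcount _ ρ))
      · intro i hi
        rw [Finset.mem_range] at hi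
        have hih := Ap.shift hP (ih (m (i + 2)) (ρ' (i + 2))) (n' - 1 - i)
        have hle : (K : ℝ) - k + ((n' - 1 - i : ℕ) : ℝ) ≤ (K : ℝ) - ((k + 1 : ℕ) : ℝ) + n' := by
          have : ((n' - 1 - i : ℕ) : ℝ) ≤ (n' : ℝ) - 1 := by
            have h5 : n' - 1 - i + 1 ≤ n' := by omega
            have h6 : ((n' - 1 - i + 1 : ℕ) : ℝ) ≤ (n' : ℝ) := by exact_mod_cast h5
            push_cast at h6
            linarith
          push_cast
          linarith
        have hm := hih.mono hle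
        rcases Nat.even_or_odd (i + 2) with he | ho
        · refine Ap.congr hm (fun q _ => ?_)
          rw [he.neg_one_pow, one_mul]
        · refine Ap.congr (Ap.neg hP hm) (fun q _ => ?_)
          rw [ho.neg_one_pow, neg_one_mul]

end recursion

/-! ### meromorphic functions -/

lemma cls_mero : Cls (fun c => Mero c ∧ Growth c) where
  congr c c' h hc := ⟨hc.1.congr fun n hn => (h n hn).symm, hc.2.congr fun n hn => (h n hn).symm⟩
  zero := ⟨mero_zero, Growth.const 0⟩
  add c c' h h' := ⟨Mero.add h.2 h'.2 h.1 h'.1, h.2.add h'.2⟩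
  neg c h := ⟨h.1.neg, h.2.neg⟩
  shift c h := ⟨h.1.shift, Growth.id.mul h.2⟩
  unshift c h := ⟨h.1.of_shift, by
    obtain ⟨C, a, h2⟩ := h.2
    refine ⟨C, a, fun n hn => ?_⟩
    have h3 := h2 n hn
    rw [norm_mul, Complex.norm_natCast] at h3
    refine le_trans ?_ h3
    exact le_mul_of_one_le_left (norm_nonneg _) (one_le hn)⟩

end Pool.Agent.HW7
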