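import Mathlib

/-!
# Serre's `L`-functions of rational representations: definitions
-/

set_option autoImplicit false

open AlgebraicGeometry

namespace Pool.Agent.HW7

/-- For a finite group `G` acting on a ring `R`, `g : G`, a prime `p` and `k ≥ 1`: the number of
points `y` of `Spec R` with values in an algebraic closure of the field with `p` elements for which
the `p ^ k` Frobenius maps `y` to its image under `g`. -/
noncomputable def twistedPoints (R : Type) [CommRing R] {G : Type} [Group G]
    [MulSemiringAction G R] (g : G) (p : Nat.Primes) (k : ℕ) : ℕ :=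
  haveI := Fact.mk p.2
  Nat.card {y : R →+* AlgebraicClosure (ZMod p) // ∀ r : R, y r ^ ((p : ℕ) ^ k) = y (g • r)}

/-- The mean over `g` of the trace of `ρ g` times the number of points `y` with
`Frob y = g y`, for the `p ^ k` Frobenius. -/
noncomputable def meanPoints (R : Type) [CommRing R] {G : Type} [Group G] [Fintype G]
    [MulSemiringAction G R] {n : ℕ} (ρ : G →* Matrix (Fin n) (Fin n) ℤ) (p : Nat.Primes)
    (k : ℕ) : ℂ :=
  (∑ g : G, ((ρ g).trace : ℂ) * twistedPoints R g p k) / Fintype.card G

/-- Serre's `L`-function `L(X, ρ, s)` of a finite group `G` acting on `X = Spec R` and of an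
integral representation `ρ` of `G` (every rational representation has such a form). -/
noncomputable def LSerre (R : Type) [CommRing R] {G : Type} [Group G] [Fintype G]
    [MulSemiringAction G R] {n : ℕ} (ρ : G →* Matrix (Fin n) (Fin n) ℤ) (s : ℂ) : ℂ :=
  Complex.exp (∑' x : Nat.Primes × ℕ, meanPoints R ρ x.1 (x.2 + 1) *
    ((((x.1 : ℕ) ^ (x.2 + 1) : ℕ) : ℂ)) ^ (-s) / (x.2 + 1))

/-- The action of `g` on the Laurent polynomials over `R`, which is the group ring of the lattice
`ℤ ^ n`: the coefficients are moved by `g`, and the monomial with exponent `x` is mapped to the one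
with exponent `ρ g x`. -/
noncomputable def latticeAction (R : Type) [CommRing R] {G : Type} [Group G]
    [MulSemiringAction G R] {n : ℕ} (ρ : G →* Matrix (Fin n) (Fin n) ℤ) (g : G) :
    MonoidAlgebra R (Multiplicative (Fin n → ℤ)) →+* MonoidAlgebra R (Multiplicative (Fin n → ℤ)) :=
  (MonoidAlgebra.mapDomainRingHom R
      (AddMonoidHom.toMultiplicative (ρ g).mulVecLin.toAddMonoidHom)).comp
    (MonoidAlgebra.mapRingHom (Multiplicative (Fin n → ℤ)) (MulSemiringAction.toRingHom G R g))

/-- The Laurent polynomials which are invariant under `G`. -/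
noncomputable def latticeInvariants (R : Type) [CommRing R] {G : Type} [Group G]
    [MulSemiringAction G R] {n : ℕ} (ρ : G →* Matrix (Fin n) (Fin n) ℤ) :
    Subring (MonoidAlgebra R (Multiplicative (Fin n → ℤ))) :=
  ⨅ g : G, (latticeAction R ρ g).eqLocus (RingHom.id _)

/-- The quotient `(X × T) / G`, where `X = Spec R` and `T` is the torus whose character lattice is
`ℤ ^ n` with the action `ρ` of `G`. -/
noncomputable def torusQuotient (R : Type) [CommRing R] {G : Type} [Group G]
    [MulSemiringAction G R] {n : ℕ} (ρ : G →* Matrix (Fin n) (Fin n) ℤ) : Scheme.{0} :=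
  Spec (CommRingCat.of (latticeInvariants R ρ))

end Pool.Agent.HW7
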