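import Pool.Agent.Helper29.Zeta.Ana

/-!
# The exponent of a zeta function as a sum over the primes and the exponents
-/

set_option autoImplicit false

open Complex
open scoped ArithmeticFunction.vonMangoldt
open Pool.Agent.Helper29.Zeta

namespace Pool.Agent.HW7

/-- the term of `D c` at `p ^ (k + 1)` -/
lemma term_prime_pow (c : ℕ → ℂ) (s : ℂ) (p : Nat.Primes) (k : ℕ) :
    LSeries.term (coef c) s ((p : ℕ) ^ (k + 1)) =
      c ((p : ℕ) ^ (k + 1)) * ((((p : ℕ) ^ (k + 1) : ℕ) : ℂ)) ^ (-s) / (k + 1) := by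
  have hp : (p : ℕ).Prime := p.2
  have hlp : Real.log (p : ℕ) ≠ 0 := (Real.log_pos (by exact_mod_cast hp.one_lt)).ne'
  have hk0 : ((k : ℝ) + 1) ≠ 0 := by positivity
  have h5 : Λ ((p : ℕ) ^ (k + 1)) = Real.log (p : ℕ) := by
    rw [ArithmeticFunction.vonMangoldt_apply_pow (Nat.succ_ne_zero k),
      ArithmeticFunction.vonMangoldt_apply_prime hp]
  have h6 : Real.log (((p : ℕ) ^ (k + 1) : ℕ) : ℝ) = (k + 1) * Real.log (p : ℕ) := by
    push_cast
    rw [Real.log_pow]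
    push_cast
    rfl
  have h7 : (((Λ ((p : ℕ) ^ (k + 1)) / Real.log (((p : ℕ) ^ (k + 1) : ℕ) : ℝ) : ℝ)) : ℂ) =
      1 / ((k : ℂ) + 1) := by
    rw [h5, h6]
    have : Real.log (p : ℕ) / ((k + 1) * Real.log (p : ℕ)) = 1 / ((k : ℝ) + 1) := by
      field_simp
    rw [this]
    push_cast
    rfl
  rw [LSeries.term_of_ne_zero (pow_pos hp.pos _).ne', coef, h7, Complex.cpow_neg]
  ring

/-- the Dirichlet series `D c` as a sum over the primes and the exponents -/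
theorem D_eq (c : ℕ → ℂ) (s : ℂ) :
    D c s = ∑' x : Nat.Primes × ℕ, c ((x.1 : ℕ) ^ (x.2 + 1)) *
      ((((x.1 : ℕ) ^ (x.2 + 1) : ℕ) : ℂ)) ^ (-s) / (x.2 + 1) := by
  have hi : Function.Injective (fun x : Nat.Primes × ℕ => (x.1 : ℕ) ^ (x.2 + 1)) := by
    rintro ⟨p, k⟩ ⟨q, l⟩ h
    refine Nat.Primes.prodNatEquiv.injective (Subtype.ext ?_)
    simpa [Nat.Primes.prodNatEquiv_apply] using h
  have h0 : Function.support (LSeries.term (coef c) s) ⊆
      Set.range (fun x : Nat.Primes × ℕ => (x.1 : ℕ) ^ (x.2 + 1)) := by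
    intro n hn
    have hn0 : n ≠ 0 := by
      rintro rfl
      exact hn (LSeries.term_zero _ _)
    have hpp : IsPrimePow n := by
      by_contra hpp
      refine hn ?_
      rw [LSeries.term_of_ne_zero hn0, coef_of_not hpp, zero_div]
    obtain ⟨p, k, hp, hk, rfl⟩ := hpp
    exact ⟨(⟨p, hp.nat_prime⟩, k - 1), by
      show p ^ (k - 1 + 1) = p ^ k
      rw [Nat.sub_add_cancel hk]⟩
  have h1 := hi.tsum_eq h0
  unfold D LSeries
  rw [← h1]
  exact tsum_congr fun x => term_prime_pow c s x.1 x.2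

/-- absolute convergence on a right half-plane -/
theorem summable_D {c : ℕ → ℂ} (hc : Growth c) : ∃ σ : ℝ, ∀ s : ℂ, σ < s.re →
    Summable (fun x : Nat.Primes × ℕ => c ((x.1 : ℕ) ^ (x.2 + 1)) *
      ((((x.1 : ℕ) ^ (x.2 + 1) : ℕ) : ℂ)) ^ (-s) / (x.2 + 1)) := by
  obtain ⟨σ, hσ⟩ := hc.summable
  refine ⟨σ, fun s hs => ?_⟩
  have hi : Function.Injective (fun x : Nat.Primes × ℕ => (x.1 : ℕ) ^ (x.2 + 1)) := by
    rintro ⟨p, k⟩ ⟨q, l⟩ h
    refine Nat.Primes.prodNatEquiv.injective (Subtype.ext ?_)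
    simpa [Nat.Primes.prodNatEquiv_apply] using h
  have h2 := (show Summable (LSeries.term (coef c) s) from hσ s hs).comp_injective hi
  refine h2.congr fun x => ?_
  exact term_prime_pow c s x.1 x.2

/-- the form asked for in row G6 -/
theorem exp_D_eq (c : ℕ → ℂ) : ∃ σ : ℝ, ∀ s : ℂ, σ < s.re → exp (D c s) =
    exp (∑' x : Nat.Primes × ℕ, c ((x.1 : ℕ) ^ (x.2 + 1)) *
      ((((x.1 : ℕ) ^ (x.2 + 1) : ℕ) : ℂ)) ^ (-s) / (x.2 + 1)) :=
  ⟨0, fun s _ => by rw [D_eq]⟩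

end Pool.Agent.HW7
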