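import Mathlib

/-!
# Points of twisted tori
-/

set_option autoImplicit false

open Polynomial

namespace Pool.Agent.HW7

variable {n : ℕ}

/-- the endomorphism `q - M` of the lattice -/
noncomputable def qM (M : Matrix (Fin n) (Fin n) ℤ) (q : ℕ) : Matrix (Fin n) (Fin n) ℤ :=
  Matrix.scalar (Fin n) (q : ℤ) - M

lemma qM_mulVec (M : Matrix (Fin n) (Fin n) ℤ) (q : ℕ) (x : Fin n → ℤ) :
    (qM M q).mulVec x = q • x - M.mulVec x := by
  unfold qM
  rw [Matrix.sub_mulVec]
  congr 1
  funext i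
  simp [Matrix.scalar_apply, Matrix.mulVec_diagonal]

/-- the cokernel of `q - M` -/
lemma card_coker (M : Matrix (Fin n) (Fin n) ℤ) (h : M.det ≠ 0) :
    Nat.card ((Fin n → ℤ) ⧸ (LinearMap.range M.mulVecLin).toAddSubgroup) = M.det.natAbs := by
  have hinj : Function.Injective M.mulVecLin := by
    rw [← LinearMap.ker_eq_bot, LinearMap.ker_eq_bot']
    intro x hx
    by_contra hx0
    exact h (Matrix.exists_mulVec_eq_zero_iff.1 ⟨x, hx0, hx⟩)
  let e : (Fin n → ℤ) ≃ₗ[ℤ] LinearMap.range M.mulVecLin := LinearEquiv.ofInjective _ hinj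
  have h1 := Submodule.natAbs_det_equiv (LinearMap.range M.mulVecLin) e
  have h2 : (LinearMap.range M.mulVecLin).subtype ∘ₗ AddMonoidHom.toIntLinearMap
      (e : (Fin n → ℤ) →+ LinearMap.range M.mulVecLin) = M.mulVecLin := by
    ext x i
    rfl
  rw [h2] at h1
  have h3 : LinearMap.det M.mulVecLin = M.det := by
    rw [← Matrix.toLin'_apply', LinearMap.det_toLin']
  rw [h3] at h1
  exact h1.symm

/-- **points of a twisted torus** -/
theorem card_torus {K : Type*} [Field K] [IsAlgClosed K] (M : Matrix (Fin n) (Fin n) ℤ) (q : ℕ)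
    (h : (((qM M q).det : ℤ) : K) ≠ 0) :
    Nat.card {t : Multiplicative (Fin n → ℤ) →* K //
      ∀ x : Fin n → ℤ, t (.ofAdd x) ^ q = t (.ofAdd (M.mulVec x))} = (qM M q).det.natAbs := by
  have h0 : (qM M q).det ≠ 0 := fun h' => h (by rw [h', Int.cast_zero])
  rw [← card_coker (qM M q) h0]
  set N : AddSubgroup (Fin n → ℤ) := (LinearMap.range (qM M q).mulVecLin).toAddSubgroup with hN
  have hfin : Finite ((Fin n → ℤ) ⧸ N) := Nat.finite_of_card_ne_zero (by
    rw [card_coker (qM M q) h0]; exact Int.natAbs_ne_zero.2 h0)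
  have hcard : ((Nat.card ((Fin n → ℤ) ⧸ N) : ℕ) : K) ≠ 0 := by
    rw [card_coker (qM M q) h0]
    intro h'
    obtain ⟨d, hd⟩ : ∃ d : ℕ, (qM M q).det.natAbs = d := ⟨_, rfl⟩
    rw [hd] at h'
    rcases Int.natAbs_eq (qM M q).det with h1 | h1
    · rw [hd] at h1
      exact h (by rw [h1, Int.cast_natCast, h'])
    · rw [hd] at h1
      exact h (by rw [h1, Int.cast_neg, Int.cast_natCast, h', neg_zero])
  have hexp : ((Monoid.exponent (Multiplicative ((Fin n → ℤ) ⧸ N)) : ℕ) : K) ≠ 0 := by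
    intro h'
    apply hcard
    obtain ⟨c, hc⟩ := Group.exponent_dvd_nat_card (G := Multiplicative ((Fin n → ℤ) ⧸ N))
    have h2 : Nat.card ((Fin n → ℤ) ⧸ N) = Monoid.exponent (Multiplicative ((Fin n → ℤ) ⧸ N)) * c :=
      hc
    rw [h2, Nat.cast_mul, h', zero_mul]
  have hne : NeZero ((Monoid.exponent (Multiplicative ((Fin n → ℤ) ⧸ N)) : ℕ) : K) := ⟨hexp⟩
  have key := CommGroup.card_monoidHom_of_hasEnoughRootsOfUnity
    (Multiplicative ((Fin n → ℤ) ⧸ N)) K
  have e0 : Nat.card (Multiplicative ((Fin n → ℤ) ⧸ N)) = Nat.card ((Fin n → ℤ) ⧸ N) := rfl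
  rw [e0] at key
  rw [← key]
  have hmem : ∀ x : Fin n → ℤ, (q • x - M.mulVec x) ∈ N := fun x => ⟨x, qM_mulVec M q x⟩
  let Φ : (Multiplicative ((Fin n → ℤ) ⧸ N) →* Kˣ) → {t : Multiplicative (Fin n → ℤ) →* K //
      ∀ x : Fin n → ℤ, t (.ofAdd x) ^ q = t (.ofAdd (M.mulVec x))} := fun s =>
    ⟨(Units.coeHom K).comp (s.comp (AddMonoidHom.toMultiplicative (QuotientAddGroup.mk' N))), by
      intro x
      simp only [MonoidHom.comp_apply]
      rw [← map_pow, ← map_pow, ← map_pow]
      congr 2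
      have h1 : QuotientAddGroup.mk' N (q • x) = QuotientAddGroup.mk' N (M.mulVec x) := by
        rw [← sub_eq_zero, ← map_sub, QuotientAddGroup.mk'_apply, QuotientAddGroup.eq_zero_iff]
        exact hmem x
      exact congrArg Multiplicative.ofAdd h1⟩
  refine (Nat.card_congr (Equiv.ofBijective Φ ⟨?_, ?_⟩)).symm
  · intro s s' hs
    have h1 : ∀ x : Fin n → ℤ, s (.ofAdd (x : (Fin n → ℤ) ⧸ N)) = s' (.ofAdd (x : (Fin n → ℤ) ⧸ N)) := by
      intro x
      have h2 := DFunLike.congr_fun (congrArg Subtype.val hs) (.ofAdd x)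
      exact Units.ext h2
    refine DFunLike.ext _ _ fun y => ?_
    obtain ⟨x, hx⟩ := QuotientAddGroup.mk_surjective (Multiplicative.toAdd y)
    have h3 := h1 x
    rw [hx] at h3
    exact h3
  · rintro ⟨t, ht⟩
    let t' : Multiplicative (Fin n → ℤ) →* Kˣ := t.toHomUnits
    have ht' : ∀ x : Fin n → ℤ, t' (.ofAdd x) ^ q = t' (.ofAdd (M.mulVec x)) := fun x =>
      Units.ext (ht x)
    let f : (Fin n → ℤ) →+ Additive Kˣ := MonoidHom.toAdditiveRight t'
    have hf : ∀ x ∈ N, f x = 0 := by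
      rintro _ ⟨x, rfl⟩
      have h1 : (qM M q).mulVecLin x = q • x - M.mulVec x := qM_mulVec M q x
      rw [h1, map_sub, map_nsmul, sub_eq_zero]
      exact congrArg Additive.ofMul (ht' x)
    refine ⟨AddMonoidHom.toMultiplicativeLeft (QuotientAddGroup.lift N f hf), ?_⟩
    refine Subtype.ext (DFunLike.ext _ _ fun y => ?_)
    rfl

/-- the determinant does not vanish in characteristic `p` -/
lemma det_ne {K : Type*} [Field K] (M : Matrix (Fin n) (Fin n) ℤ) (hM : IsUnit M.det) (q : ℕ)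
    (hq : (q : K) = 0) : (((qM M q).det : ℤ) : K) ≠ 0 := by
  have h1 : (((qM M q).det : ℤ) : K) = ((Int.castRingHom K).mapMatrix (qM M q)).det := by
    rw [← RingHom.map_det]; rfl
  have h2 : (Int.castRingHom K).mapMatrix (qM M q) = - (Int.castRingHom K).mapMatrix M := by
    unfold qM
    rw [map_sub]
    have : (Int.castRingHom K).mapMatrix (Matrix.scalar (Fin n) (q : ℤ)) = 0 := by
      ext i j
      rw [RingHom.mapMatrix_apply, Matrix.map_apply, Matrix.scalar_apply, Matrix.diagonal_apply]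
      split_ifs
      · simp [hq]
      · simp
    rw [this, zero_sub]
  rw [h1, h2, Matrix.det_neg, ← RingHom.map_det]
  have h3 : IsUnit (Int.castRingHom K M.det) := hM.map _
  exact mul_ne_zero (pow_ne_zero _ (neg_ne_zero.2 one_ne_zero)) h3.ne_zero

/-- the determinant is positive if `M` has finite order -/
theorem det_pos (M : Matrix (Fin n) (Fin n) ℤ) {k : ℕ} (hk : 0 < k) (hM : M ^ k = 1) {q : ℕ}
    (hq : 1 < q) : 0 < (qM M q).det := by
  -- the real characteristic polynomial
  let MR : Matrix (Fin n) (Fin n) ℝ := (Int.castRingHom ℝ).mapMatrix M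
  have hMR : MR ^ k = 1 := by
    show ((Int.castRingHom ℝ).mapMatrix M) ^ k = 1
    rw [← map_pow, hM, map_one]
  have hroot : ∀ t : ℝ, 1 < t → MR.charpoly.eval t ≠ 0 := by
    intro t ht h0
    rw [Matrix.eval_charpoly] at h0
    obtain ⟨v, hv, hv0⟩ := Matrix.exists_mulVec_eq_zero_iff.2 h0
    have h1 : MR.mulVec v = t • v := by
      rw [Matrix.sub_mulVec, sub_eq_zero] at hv0
      rw [← hv0]
      funext i
      simp [Matrix.scalar_apply, Matrix.mulVec_diagonal]
    have h2 : ∀ l : ℕ, (MR ^ l).mulVec v = t ^ l • v := by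
      intro l
      induction l with
      | zero => simp
      | succ l ih =>
        rw [pow_succ', ← Matrix.mulVec_mulVec, ih, Matrix.mulVec_smul, h1, smul_smul, pow_succ]
    have h3 := h2 k
    rw [hMR, Matrix.one_mulVec] at h3
    apply hv
    have h4 : (t ^ k - 1) • v = 0 := by rw [sub_smul, one_smul, ← h3, sub_self]
    rcases smul_eq_zero.1 h4 with h5 | h5
    · have : 1 < t ^ k := one_lt_pow₀ ht hk.ne'
      linarith
    · exact h5
  have hpos : 0 < MR.charpoly.eval (q : ℝ) := by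
    by_contra hneg
    rw [not_lt] at hneg
    rcases Nat.eq_zero_or_pos n with hn | hn
    · subst hn
      have : MR.charpoly = 1 := by
        unfold Matrix.charpoly
        exact Matrix.det_isEmpty
      rw [this, eval_one] at hneg
      linarith
    have hmon : MR.charpoly.Monic := Matrix.charpoly_monic MR
    have hdeg : 0 < MR.charpoly.degree := by
      rw [Matrix.charpoly_degree_eq_dim, Fintype.card_fin]
      exact_mod_cast hn
    have htend := Polynomial.tendsto_atTop_of_leadingCoeff_nonneg MR.charpoly hdeg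
      (by rw [hmon.leadingCoeff]; exact zero_le_one)
    obtain ⟨t, ht1, ht2⟩ := ((htend.eventually_gt_atTop 0).and
      (Filter.eventually_ge_atTop (q : ℝ))).exists
    obtain ⟨u, hu1, hu2⟩ := intermediate_value_Icc ht2
      (MR.charpoly.continuous.continuousOn (s := Set.Icc (q : ℝ) t)) ⟨hneg, ht1.le⟩
    exact hroot u (lt_of_lt_of_le (by exact_mod_cast hq) hu1.1) hu2
  rw [Matrix.eval_charpoly] at hpos
  have h5 : (((qM M q).det : ℤ) : ℝ) = (Matrix.scalar (Fin n) (q : ℝ) - MR).det := by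
    have : (((qM M q).det : ℤ) : ℝ) = Int.castRingHom ℝ (qM M q).det := rfl
    rw [this, RingHom.map_det]
    congr 1
    unfold qM
    rw [map_sub]
    congr 1
    ext i j
    simp [Matrix.scalar_apply, Matrix.diagonal_apply]
  rw [← h5] at hpos
  exact_mod_cast hpos

/-- the determinant is the value of the characteristic polynomial -/
lemma det_qM (M : Matrix (Fin n) (Fin n) ℤ) (q : ℕ) : (qM M q).det = M.charpoly.eval (q : ℤ) := by
  rw [Matrix.eval_charpoly]; rfl

/-- **points of a twisted torus**, for a matrix of finite order and `q` a power of the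
characteristic -/
theorem card_torus_charpoly {K : Type*} [Field K] [IsAlgClosed K] (M : Matrix (Fin n) (Fin n) ℤ)
    {k : ℕ} (hk : 0 < k) (hM : M ^ k = 1) {q : ℕ} (hq : 1 < q) (hqK : (q : K) = 0) :
    ((Nat.card {t : Multiplicative (Fin n → ℤ) →* K //
      ∀ x : Fin n → ℤ, t (.ofAdd x) ^ q = t (.ofAdd (M.mulVec x))} : ℕ) : ℤ) =
      M.charpoly.eval (q : ℤ) := by
  have hu : IsUnit M.det := by
    have h1 : M.det ^ k = 1 := by rw [← Matrix.det_pow, hM, Matrix.det_one]
    exact IsUnit.of_pow_eq_one h1 hk.ne'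
  rw [card_torus M q (det_ne M hu q hqK), ← det_qM, Int.natAbs_of_nonneg (det_pos M hk hM hq).le]

end Pool.Agent.HW7
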