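import Pool.Agent.HW7.Tw
import Pool.Agent.HW7.Tor

/-!
# The quotient of a torus bundle by a finite group
-/

set_option autoImplicit false

open Pool.Agent.HW Pool.Agent.Helper29.Zeta

namespace Pool.Agent.HW7

variable {R : Type} [CommRing R] {G : Type} [Group G] [MulSemiringAction G R] {n : ℕ}

/-- the lattice, written multiplicatively -/
abbrev Lt (n : ℕ) : Type := Multiplicative (Fin n → ℤ)

/-- the group ring of the lattice, on which `G` acts through `ρ` and through `R` -/
def GR (R : Type) [CommRing R] {G : Type} [Group G] [MulSemiringAction G R] {n : ℕ}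
    (_ρ : G →* Matrix (Fin n) (Fin n) ℤ) : Type := MonoidAlgebra R (Lt n)

variable (ρ : G →* Matrix (Fin n) (Fin n) ℤ)

noncomputable instance : CommRing (GR R ρ) := inferInstanceAs (CommRing (MonoidAlgebra R (Lt n)))

/-- constants -/
noncomputable def cst : R →+* GR R ρ :=
  (MonoidAlgebra.singleOneRingHom : R →+* MonoidAlgebra R (Lt n))

/-- monomials -/
noncomputable def mnm (R : Type) [CommRing R] {G : Type} [Group G] [MulSemiringAction G R]
    (ρ : G →* Matrix (Fin n) (Fin n) ℤ) : Lt n →* GR R ρ :=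
  (MonoidAlgebra.of R (Lt n) : Lt n →* MonoidAlgebra R (Lt n))

/-- homomorphisms out of the group ring -/
noncomputable def lft {S : Type*} [CommRing S] (y : R →+* S) (t : Lt n →* S) : GR R ρ →+* S :=
  (MonoidAlgebra.liftNCRingHom y t fun _ _ => Commute.all _ _ : MonoidAlgebra R (Lt n) →+* S)

lemma lft_cst {S : Type*} [CommRing S] (y : R →+* S) (t : Lt n →* S) (r : R) :
    lft ρ y t (cst ρ r) = y r := by
  show (MonoidAlgebra.liftNCRingHom y t fun _ _ => Commute.all _ _ : MonoidAlgebra R (Lt n) →+* S)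
    (MonoidAlgebra.single 1 r) = y r
  simp [MonoidAlgebra.liftNCRingHom]

lemma lft_mnm {S : Type*} [CommRing S] (y : R →+* S) (t : Lt n →* S) (x : Lt n) :
    lft ρ y t (mnm R ρ x) = t x := by
  show (MonoidAlgebra.liftNCRingHom y t fun _ _ => Commute.all _ _ : MonoidAlgebra R (Lt n) →+* S)
    (MonoidAlgebra.single x 1) = t x
  simp [MonoidAlgebra.liftNCRingHom]

lemma gr_ext {S : Type*} [CommRing S] {f g : GR R ρ →+* S} (h1 : ∀ r, f (cst ρ r) = g (cst ρ r))
    (h2 : ∀ x, f (mnm R ρ x) = g (mnm R ρ x)) : f = g :=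
  MonoidAlgebra.ringHom_ext (R := R) (M := Lt n) h1 h2

/-- the action on the lattice -/
def latAct (g : G) : Lt n →* Lt n :=
  AddMonoidHom.toMultiplicative ((ρ g).mulVecLin.toAddMonoidHom)

lemma latAct_apply (g : G) (x : Fin n → ℤ) :
    latAct ρ g (.ofAdd x) = .ofAdd ((ρ g).mulVec x) := rfl

lemma latAct_one (x : Lt n) : latAct ρ 1 x = x := by
  show Multiplicative.ofAdd ((ρ 1).mulVec x.toAdd) = x
  rw [map_one, Matrix.one_mulVec]; rfl

lemma latAct_mul (g h : G) (x : Lt n) : latAct ρ (g * h) x = latAct ρ g (latAct ρ h x) := by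
  show Multiplicative.ofAdd ((ρ (g * h)).mulVec x.toAdd) =
    Multiplicative.ofAdd ((ρ g).mulVec ((ρ h).mulVec x.toAdd))
  rw [map_mul, Matrix.mulVec_mulVec]

/-- the action on the group ring -/
noncomputable def grAct (g : G) : GR R ρ →+* GR R ρ :=
  lft ρ ((cst ρ).comp (MulSemiringAction.toRingHom G R g)) ((mnm R ρ).comp (latAct ρ g))

lemma grAct_cst (g : G) (r : R) : grAct ρ g (cst ρ r) = cst ρ (g • r) := lft_cst ρ _ _ _

lemma grAct_mnm (g : G) (x : Lt n) : grAct ρ g (mnm R ρ x) = mnm R ρ (latAct ρ g x) :=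
  lft_mnm ρ _ _ _

noncomputable instance : MulSemiringAction G (GR R ρ) where
  smul g s := grAct ρ g s
  one_smul s := by
    have : grAct (R := R) ρ 1 = RingHom.id _ := by
      refine gr_ext ρ (fun r => ?_) fun x => ?_
      · rw [grAct_cst, one_smul]; rfl
      · rw [grAct_mnm, latAct_one]; rfl
    exact congrArg (fun f : GR R ρ →+* GR R ρ => f s) this
  mul_smul g h s := by
    have : grAct (R := R) ρ (g * h) = (grAct ρ g).comp (grAct ρ h) := by
      refine gr_ext ρ (fun r => ?_) fun x => ?_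
      · rw [RingHom.comp_apply, grAct_cst, grAct_cst, grAct_cst, mul_smul]
      · rw [RingHom.comp_apply, grAct_mnm, grAct_mnm, grAct_mnm, latAct_mul]
    exact congrArg (fun f : GR R ρ →+* GR R ρ => f s) this
  smul_zero g := map_zero (grAct ρ g)
  smul_add g := map_add (grAct ρ g)
  smul_one g := map_one (grAct ρ g)
  smul_mul g := map_mul (grAct ρ g)

lemma smul_eq (g : G) (s : GR R ρ) : g • s = grAct ρ g s := rfl

instance finiteType_gr [Algebra.FiniteType ℤ R] : Algebra.FiniteType ℤ (GR R ρ) := by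
  have h1 : Algebra.FiniteType R (MonoidAlgebra R (Lt n)) := inferInstance
  have h2 : Algebra.FiniteType ℤ (MonoidAlgebra R (Lt n)) :=
    Algebra.FiniteType.trans (S := R) inferInstance h1
  exact ft_of _ h2

/-- the twisted counts of the group ring -/
theorem tw_gr [Finite G] (g : G) {q : ℕ} (hq : IsPrimePow q) :
    ((tw (GR R ρ) g q : ℕ) : ℤ) = (tw R g q : ℤ) * (ρ g).charpoly.eval (q : ℤ) := by
  obtain ⟨p, k, hp', hk, rfl⟩ := hq
  have hp := hp'.nat_prime
  have : Fact p.Prime := ⟨hp⟩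
  have h1 : CharP (FF (p ^ k)) p := charP_FF hp hk
  have h2 : CharP (AlgebraicClosure (FF (p ^ k))) p :=
    charP_of_injective_algebraMap (algebraMap (FF (p ^ k)) _).injective p
  have hq1 : 1 < p ^ k := Nat.one_lt_pow hk.ne' hp.one_lt
  have hq0 : ((p ^ k : ℕ) : AlgebraicClosure (FF (p ^ k))) = 0 := by
    rw [Nat.cast_pow, CharP.cast_eq_zero, zero_pow hk.ne']
  have hρ : ρ g ^ Nat.card G = 1 := by rw [← map_pow, pow_card_eq_one', map_one]
  rw [← card_torus_charpoly (K := AlgebraicClosure (FF (p ^ k))) (ρ g) Nat.card_pos hρ hq1 hq0]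
  unfold tw
  rw [← Nat.cast_mul, ← Nat.card_prod]
  congr 1
  refine Nat.card_congr
    { toFun := fun y => (⟨y.1.comp (cst ρ), fun r => ?_⟩,
        ⟨(y.1 : GR R ρ →* AlgebraicClosure (FF (p ^ k))).comp (mnm R ρ), fun x => ?_⟩)
      invFun := fun yt => ⟨lft ρ yt.1.1 yt.2.1, ?_⟩
      left_inv := fun y => ?_
      right_inv := fun yt => ?_ }
  · show y.1 (cst ρ r) ^ p ^ k = y.1 (cst ρ (g • r))
    rw [y.2, smul_eq, grAct_cst]
  · show y.1 (mnm R ρ (.ofAdd x)) ^ p ^ k = y.1 (mnm R ρ (.ofAdd ((ρ g).mulVec x)))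
    rw [y.2, smul_eq, grAct_mnm, latAct_apply]
  · have h3 : (iterateFrobenius (AlgebraicClosure (FF (p ^ k))) p k).comp (lft ρ yt.1.1 yt.2.1) =
        (lft ρ yt.1.1 yt.2.1).comp (grAct ρ g) := by
      refine gr_ext ρ (fun r => ?_) fun x => ?_
      · rw [RingHom.comp_apply, RingHom.comp_apply, grAct_cst, lft_cst, lft_cst,
          iterateFrobenius_def]
        exact yt.1.2 r
      · rw [RingHom.comp_apply, RingHom.comp_apply, grAct_mnm, lft_mnm, lft_mnm,
          iterateFrobenius_def]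
        exact yt.2.2 x.toAdd
    intro s
    have h4 := congrArg (fun f : GR R ρ →+* AlgebraicClosure (FF (p ^ k)) => f s) h3
    rw [smul_eq]
    simpa [iterateFrobenius_def] using h4
  · refine Subtype.ext (gr_ext ρ (fun r => ?_) fun x => ?_)
    · exact lft_cst ρ _ _ _
    · exact lft_mnm ρ _ _ _
  · refine Prod.ext (Subtype.ext ?_) (Subtype.ext ?_)
    · ext r
      exact lft_cst ρ _ _ _
    · refine DFunLike.ext _ _ fun x => ?_
      exact lft_mnm ρ _ _ _

/-- **the quotient of the torus bundle** -/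
theorem lat_count (R : Type) [CommRing R] [Algebra.FiniteType ℤ R] (G : Type) [Group G]
    [Fintype G] [MulSemiringAction G R] {n : ℕ} (ρ : G →* Matrix (Fin n) (Fin n) ℤ) :
    ∃ (A : Type) (_ : CommRing A) (_ : Algebra.FiniteType ℤ A), ∀ q : ℕ, IsPrimePow q →
      ((Nat.card (A →+* FF q) * Nat.card G : ℕ) : ℤ) =
        ∑ g : G, (tw R g q : ℤ) * (ρ g).charpoly.eval (q : ℤ) := by
  refine ⟨FixedPoints.subring (GR R ρ) G, inferInstance,
    Pool.Agent.HW3.finiteType_inv (R := GR R ρ) (G := G), fun q hq => ?_⟩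
  rw [card_inv_tw (GR R ρ) G hq, Nat.cast_sum]
  exact Finset.sum_congr rfl fun g _ => tw_gr ρ g hq

end Pool.Agent.HW7
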