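import Pool.Agent.HW7.Defs
import Pool.Agent.HW7.Lat

/-!
# The quotient of a torus bundle as a ring of invariant Laurent polynomials
-/

set_option autoImplicit false

open AlgebraicGeometry
open Pool.Agent.HW Pool.Agent.Helper29.Zeta

namespace Pool.Agent.HW7

variable {R : Type} [CommRing R] {G : Type} [Group G] [MulSemiringAction G R] {n : ℕ}
  (ρ : G →* Matrix (Fin n) (Fin n) ℤ)

lemma latticeAction_const (g : G) (r : R) :
    latticeAction R ρ g (MonoidAlgebra.single 1 r) = MonoidAlgebra.single 1 (g • r) := by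
  unfold latticeAction
  rw [RingHom.comp_apply, MonoidAlgebra.mapRingHom_single, MonoidAlgebra.mapDomainRingHom_apply,
    MonoidAlgebra.mapDomain_single, map_one]
  rfl

lemma latticeAction_monomial (g : G) (x : Lt n) :
    latticeAction R ρ g (MonoidAlgebra.single x 1) = MonoidAlgebra.single (latAct ρ g x) 1 := by
  unfold latticeAction
  rw [RingHom.comp_apply, MonoidAlgebra.mapRingHom_single, MonoidAlgebra.mapDomainRingHom_apply,
    MonoidAlgebra.mapDomain_single, map_one]
  rfl

lemma latticeAction_eq (g : G) (s : GR R ρ) :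
    (latticeAction R ρ g s : MonoidAlgebra R (Multiplicative (Fin n → ℤ))) = grAct ρ g s := by
  have h : (latticeAction R ρ g : GR R ρ →+* GR R ρ) = grAct ρ g := by
    refine gr_ext ρ (fun r => ?_) fun x => ?_
    · exact (latticeAction_const ρ g r).trans (grAct_cst ρ g r).symm
    · exact (latticeAction_monomial ρ g x).trans (grAct_mnm ρ g x).symm
  exact congrArg (fun f : GR R ρ →+* GR R ρ => f s) h

lemma mem_latticeInvariants (s : MonoidAlgebra R (Multiplicative (Fin n → ℤ))) :
    s ∈ latticeInvariants R ρ ↔ ∀ g : G, latticeAction R ρ g s = s := by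
  unfold latticeInvariants
  rw [Subring.mem_iInf]
  rfl

lemma mem_iff (s : GR R ρ) : s ∈ FixedPoints.subring (GR R ρ) G ↔
    (s : MonoidAlgebra R (Multiplicative (Fin n → ℤ))) ∈ latticeInvariants R ρ := by
  have h : (∀ g : G, g • s = s) ↔
      ∀ g : G, (latticeAction R ρ g s : MonoidAlgebra R (Multiplicative (Fin n → ℤ))) = s := by
    refine forall_congr' fun g => ?_
    rw [smul_eq, latticeAction_eq]
    exact Iff.rfl
  exact h.trans (mem_latticeInvariants ρ s).symm

/-- the two rings of invariants are the same -/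
noncomputable def invEquiv : FixedPoints.subring (GR R ρ) G ≃+* latticeInvariants R ρ where
  toFun s := ⟨s.1, (mem_iff ρ s.1).1 s.2⟩
  invFun s := ⟨s.1, (mem_iff ρ s.1).2 s.2⟩
  left_inv _ := rfl
  right_inv _ := rfl
  map_mul' _ _ := rfl
  map_add' _ _ := rfl

lemma card_latticeInvariants [Algebra.FiniteType ℤ R] [Fintype G] {q : ℕ} (hq : IsPrimePow q) :
    ((Nat.card (latticeInvariants R ρ →+* FF q) * Nat.card G : ℕ) : ℤ) =
      ∑ g : G, (tw R g q : ℤ) * (ρ g).charpoly.eval (q : ℤ) := by
  have h1 : Nat.card (latticeInvariants R ρ →+* FF q) =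
      Nat.card (FixedPoints.subring (GR R ρ) G →+* FF q) := by
    refine Nat.card_congr
      { toFun := fun f => f.comp ((invEquiv (R := R) ρ).toRingHom)
        invFun := fun f => f.comp ((invEquiv (R := R) ρ).symm.toRingHom)
        left_inv := fun f => RingHom.ext fun _ => rfl
        right_inv := fun f => RingHom.ext fun _ => rfl }
  rw [h1, card_inv_tw (GR R ρ) G hq, Nat.cast_sum]
  exact Finset.sum_congr rfl fun g _ => tw_gr ρ g hq

instance finiteType_latticeInvariants [Algebra.FiniteType ℤ R] [Finite G] :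
    Algebra.FiniteType ℤ (latticeInvariants R ρ) := by
  have h1 : Algebra.FiniteType ℤ (FixedPoints.subring (GR R ρ) G) :=
    Pool.Agent.HW3.finiteType_inv (R := GR R ρ) (G := G)
  exact Algebra.FiniteType.of_surjective (invEquiv (R := R) ρ).toRingHom.toIntAlgHom
    (invEquiv (R := R) ρ).surjective

end Pool.Agent.HW7
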