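import Pool.Agent.HW.Rec
import Pool.Agent.HW3.Quot

/-!
# The points of a quotient by a finite group, counted by twisted Frobenius fixed points
-/

set_option autoImplicit false

open Pool.Agent.HW

namespace Pool.Agent.HW7

section abs

variable {G Y Z : Type*} [Group G] [MulAction G Y]

/-- the points whose orbit is fixed -/
def fixOrb (F : Y → Y) (hF : ∀ (g : G) (y : Y), F (g • y) = g • F y) : SubMulAction G Y where
  carrier := {y | ∃ g : G, F y = g • y}
  smul_mem' := by
    rintro h y ⟨g, hg⟩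
    refine ⟨h * g * h⁻¹, ?_⟩
    rw [hF, hg, mul_smul, mul_smul, inv_smul_smul]

/-- **Burnside's lemma with a twist** -/
theorem card_twist (F : Y → Y) (hF : ∀ (g : G) (y : Y), F (g • y) = g • F y)
    (π : Y → Z) (hπ : ∀ y y', π y = π y' ↔ ∃ g : G, y' = g • y) (hsurj : Function.Surjective π)
    (Fz : Z → Z) (hFπ : ∀ y, π (F y) = Fz (π y)) :
    Nat.card (Σ g : G, {y : Y // F y = g • y}) = Nat.card {z // Fz z = z} * Nat.card G := by
  classical
  let Y' := fixOrb F hF
  -- first equivalence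
  have e1 : (Σ g : G, {y : Y // F y = g • y}) ≃ Σ y : Y', {g : G // F y.1 = g • y.1} :=
    { toFun := fun x => ⟨⟨x.2.1, ⟨x.1, x.2.2⟩⟩, ⟨x.1, x.2.2⟩⟩
      invFun := fun x => ⟨x.2.1, ⟨x.1.1, x.2.2⟩⟩
      left_inv := fun _ => rfl
      right_inv := fun _ => rfl }
  have e2 : ∀ y : Y', Nonempty ({g : G // F y.1 = g • y.1} ≃ MulAction.stabilizer G y) := by
    rintro ⟨y, g0, hg0⟩
    refine ⟨⟨fun g => ⟨g0⁻¹ * g.1, ?_⟩, fun s => ⟨g0 * s.1, ?_⟩, ?_, ?_⟩⟩
    · rw [MulAction.mem_stabilizer_iff]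
      refine Subtype.ext ?_
      show (g0⁻¹ * g.1) • y = y
      rw [mul_smul, ← g.2]
      show g0⁻¹ • F y = y
      rw [hg0, inv_smul_smul]
    · have hs : (s.1 : G) • y = y := congrArg Subtype.val (MulAction.mem_stabilizer_iff.1 s.2)
      show F y = (g0 * s.1) • y
      rw [mul_smul, hs, hg0]
    · intro g
      refine Subtype.ext ?_
      show g0 * (g0⁻¹ * g.1) = g.1
      rw [mul_inv_cancel_left]
    · intro s
      refine Subtype.ext ?_
      show g0⁻¹ * (g0 * s.1) = s.1
      rw [inv_mul_cancel_left]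
  have e3 : (Σ g : G, {y : Y // F y = g • y}) ≃ Σ y : Y', MulAction.stabilizer G y :=
    e1.trans (Equiv.sigmaCongrRight fun y => (e2 y).some)
  have e4 : (Σ y : Y', MulAction.stabilizer G y) ≃ Σ g : G, MulAction.fixedBy Y' g :=
    ((Equiv.subtypeProdEquivSigmaSubtype
      fun (g : G) (y : Y') => g • y = y).symm.trans
      (((Equiv.prodComm G Y').subtypeEquiv fun _ => Iff.rfl).trans
        (Equiv.subtypeProdEquivSigmaSubtype fun (y : Y') (g : G) => g ∈ MulAction.stabilizer G y))).symm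
  rw [Nat.card_congr ((e3.trans e4).trans (MulAction.sigmaFixedByEquivOrbitsProdGroup G Y')),
    Nat.card_prod]
  congr 1
  -- the orbits
  have hwd : ∀ y y' : Y', (MulAction.orbitRel G Y') y y' →
      (⟨π y.1, by obtain ⟨g, hg⟩ := y.2; rw [← hFπ, hg]; exact ((hπ _ _).2 ⟨g, rfl⟩).symm⟩ :
        {z // Fz z = z}) =
      ⟨π y'.1, by obtain ⟨g, hg⟩ := y'.2; rw [← hFπ, hg]; exact ((hπ _ _).2 ⟨g, rfl⟩).symm⟩ := by
    rintro y y' ⟨g, hg⟩
    refine Subtype.ext ?_
    show π y.1 = π y'.1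
    exact ((hπ _ _).2 ⟨g, congrArg Subtype.val hg.symm⟩).symm
  let φ : MulAction.orbitRel.Quotient G Y' → {z // Fz z = z} := Quotient.lift _ hwd
  refine Nat.card_congr (Equiv.ofBijective φ ⟨?_, ?_⟩)
  · intro a b
    induction a using Quotient.inductionOn with
    | _ a =>
    induction b using Quotient.inductionOn with
    | _ b =>
    intro h
    have h1 : π b.1 = π a.1 := (congrArg Subtype.val h).symm
    obtain ⟨g, hg⟩ := (hπ _ _).1 h1
    exact Quotient.sound ⟨g, Subtype.ext hg.symm⟩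
  · rintro ⟨z, hz⟩
    obtain ⟨y, rfl⟩ := hsurj z
    have h1 : π y = π (F y) := by rw [hFπ, hz]
    obtain ⟨g, hg⟩ := (hπ _ _).1 h1
    exact ⟨Quotient.mk _ ⟨y, g, hg⟩, rfl⟩

end abs

section pts

variable (p : ℕ) [Fact p.Prime] {Ω : Type*} [Field Ω] [CharP Ω p] [IsAlgClosed Ω]
  {R : Type*} [CommRing R] {G : Type*} [Group G] [Finite G] [MulSemiringAction G R]

omit [IsAlgClosed Ω] [CharP Ω p] [Fact p.Prime] [Finite G] in
lemma pow_twist {q : ℕ} (y : R →+* Ω) (g : G) (h : ∀ r, y r ^ q = y (g • r)) (j : ℕ) (r : R) :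
    y r ^ q ^ j = y (g ^ j • r) := by
  induction j with
  | zero => simp
  | succ j ih => rw [pow_succ, pow_mul, ih, h, smul_smul, pow_succ']

lemma finite_twist [Algebra.FiniteType ℤ R] {k : ℕ} (hk : 0 < k) (g : G) :
    Finite {y : R →+* Ω // ∀ r, y r ^ p ^ k = y (g • r)} := by
  have h1 := finite_fixed p (Ω := Ω) R hk (orderOf g) (orderOf_pos g)
  have h2 : {y : R →+* Ω | ∀ r, y r ^ p ^ k = y (g • r)} ⊆
      {y : R →+* Ω | (Frob p Ω k R)^[orderOf g] y = y} := by
    intro y hy
    refine (Frob_iterate_eq p k y (orderOf g)).2 fun r => ?_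
    rw [pow_twist y g hy, pow_orderOf_eq_one, one_smul]
  exact (h1.subset h2).to_subtype

/-- **the points of the quotient** -/
theorem card_inv [Algebra.FiniteType ℤ R] [Fintype G] {k : ℕ} (hk : 0 < k) (L : Type*) [Field L]
    [Finite L] [CharP L p] (hL : Nat.card L = p ^ k) :
    ∑ g : G, Nat.card {y : R →+* Ω // ∀ r, y r ^ p ^ k = y (g • r)} =
      Nat.card (FixedPoints.subring R G →+* L) * Nat.card G := by
  letI act : MulAction G (R →+* Ω) :=
    { smul := fun g y => y.comp (MulSemiringAction.toRingHom G R g⁻¹)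
      one_smul := fun y => by
        ext r
        show y ((1 : G)⁻¹ • r) = y r
        rw [inv_one, one_smul]
      mul_smul := fun g h y => by
        ext r
        show y ((g * h)⁻¹ • r) = y (h⁻¹ • g⁻¹ • r)
        rw [mul_inv_rev, mul_smul] }
  have hact : ∀ (g : G) (y : R →+* Ω) (r : R), (g • y) r = y (g⁻¹ • r) := fun _ _ _ => rfl
  rw [card_hom_frob_one p (Ω := Ω) k (FixedPoints.subring R G) L hL]
  have key := card_twist (G := G) (Y := R →+* Ω) (Z := FixedPoints.subring R G →+* Ω)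
    (Frob p Ω k R) (fun g y => by
      ext r
      rw [Frob_apply, hact, hact, Frob_apply])
    (fun y => y.comp (FixedPoints.subring R G).subtype) (fun y y' => ?_) (fun z => ?_)
    (Frob p Ω k (FixedPoints.subring R G)) (fun y => rfl)
  · have hfin : ∀ a : G, Finite {y : R →+* Ω // ∀ r, y r ^ p ^ k = y (Equiv.inv G a • r)} :=
      fun a => finite_twist p hk _
    rw [← key, ← Equiv.sum_comp (Equiv.inv G), ← Nat.card_sigma]
    · refine Nat.card_congr (Equiv.sigmaCongrRight fun g => Equiv.subtypeEquivRight fun y => ?_)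
      rw [DFunLike.ext_iff]
      refine forall_congr' fun r => ?_
      rw [Frob_apply, hact]
      rfl
  · constructor
    · intro h
      obtain ⟨g, hg⟩ := Pool.Agent.HW3.exists_conj (G := G) y y' fun r hr =>
        congrArg (fun f : FixedPoints.subring R G →+* Ω => f ⟨r, hr⟩) h
      refine ⟨g⁻¹, ?_⟩
      ext r
      rw [hact, inv_inv]
      exact hg r
    · rintro ⟨g, rfl⟩
      ext ⟨r, hr⟩
      show y r = y (g⁻¹ • r)
      rw [hr g⁻¹]
  · have h1 : Algebra.IsInvariant (FixedPoints.subring R G) R G := ⟨fun b hb => ⟨⟨b, hb⟩, rfl⟩⟩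
    have h2 : Algebra.IsIntegral (FixedPoints.subring R G) R :=
      Algebra.IsInvariant.isIntegral (FixedPoints.subring R G) R G
    exact Pool.Agent.HW3.exists_extend (A := FixedPoints.subring R G) (B := R)
      Subtype.val_injective z

end pts

end Pool.Agent.HW7
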