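import Pool.Agent.HW7.Defs

/-!
# Equivariant pure families: definitions
-/

set_option autoImplicit false

namespace Pool.Agent.HW7

/-- Purity of the part of the cohomology of `Spec R` with compact support on which the finite group
`G` acts by `ρ`: for the primes `p` which do not divide `N` the complex numbers `A p j`, of absolute
value `p ^ (wt j / 2)`, are its Frobenius eigenvalues.

If `G` acts on a smooth projective scheme `X` over `ℤ[1/N]`, then `R` may be the product of the
rings of a decomposition of `X` into affine locally closed subschemes stable under `G`, and the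
`A p j` with `wt j = w` are the eigenvalues of Frobenius on `(H^w(X) ⊗ ρ)^G`. -/
structure RepWeights (N : ℕ) (R : Type) [CommRing R] {G : Type} [Group G] [Fintype G]
    [MulSemiringAction G R] {n : ℕ} (ρ : G →* Matrix (Fin n) (Fin n) ℤ) {J : Type} [Fintype J]
    (wt : J → ℕ) (A : ℕ → J → ℂ) : Prop where
  norm : ∀ p : ℕ, p.Prime → ¬ p ∣ N → ∀ j, ‖A p j‖ = (p : ℝ) ^ ((wt j : ℝ) / 2)
  points : ∀ (p : Nat.Primes) (k : ℕ), ¬ (p : ℕ) ∣ N → 0 < k →
    meanPoints R ρ p k = ∑ j, (-1) ^ wt j * A p j ^ k

/-- A finite family of finitely generated rings with actions of finite groups and integral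
representations of these groups, for which the corresponding part of the cohomology is pure. -/
structure RepFamily (N : ℕ) where
  /-- the index set -/
  I : Type
  /-- the rings -/
  R : I → Type
  /-- the groups -/
  G : I → Type
  /-- the degrees of the representations -/
  n : I → ℕ
  /-- the index sets of the eigenvalues -/
  J : I → Type
  /-- the weights of the eigenvalues -/
  wt : ∀ i, J i → ℕ
  /-- the eigenvalues -/
  A : ∀ i, ℕ → J i → ℂ
  [fintypeI : Fintype I]
  [fintypeJ : ∀ i, Fintype (J i)]
  [ring : ∀ i, CommRing (R i)]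
  [finiteType : ∀ i, Algebra.FiniteType ℤ (R i)]
  [group : ∀ i, Group (G i)]
  [fintypeG : ∀ i, Fintype (G i)]
  [action : ∀ i, MulSemiringAction (G i) (R i)]
  /-- the representations -/
  ρ : ∀ i, G i →* Matrix (Fin (n i)) (Fin (n i)) ℤ
  weights : ∀ i, RepWeights N (R i) (ρ i) (wt i) (A i)

namespace RepFamily

variable {N : ℕ} (F : RepFamily N)

instance : Fintype F.I := F.fintypeI

instance (i : F.I) : Fintype (F.J i) := F.fintypeJ i

instance (i : F.I) : CommRing (F.R i) := F.ring i

instance (i : F.I) : Algebra.FiniteType ℤ (F.R i) := F.finiteType i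

instance (i : F.I) : Group (F.G i) := F.group i

instance (i : F.I) : Fintype (F.G i) := F.fintypeG i

instance (i : F.I) : MulSemiringAction (F.G i) (F.R i) := F.action i

/-- All eigenvalues: the indices. -/
abbrev V : Type := Σ i, F.J i

/-- The eigenvalues. -/
def eig (p : ℕ) (v : F.V) : ℂ := F.A v.1 p v.2

/-- `f` is symmetric in the eigenvalues of each weight of each member of the family. -/
def Symmetric (f : MvPolynomial F.V ℤ) : Prop :=
  ∀ g : Equiv.Perm F.V, (∀ v, (g v).1 = v.1 ∧ F.wt (g v).1 (g v).2 = F.wt v.1 v.2) →
    MvPolynomial.rename g f = f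

end RepFamily

end Pool.Agent.HW7
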