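import Pool.Agent.HW7.Serre
import Pool.Agent.HW7.RDefs
import Pool.Agent.HW4.Fin3

/-!
# Families of equivariant pure schemes
-/

set_option autoImplicit false

open AlgebraicGeometry Filter Topology
open Pool.Agent.Helper29.Zeta Pool.Agent.HW Pool.Agent.HW3

namespace Pool.Agent.HW7

section mean

variable (R : Type) [CommRing R] {G : Type} [Group G] [Fintype G]
  [MulSemiringAction G R]

/-- the mean as a function of the prime power -/
noncomputable def nu {n : ℕ} (ρ : G →* Matrix (Fin n) (Fin n) ℤ) : ℕ → ℂ :=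
  av (fun g q => tw R g q) ρ

lemma nu_pow {n : ℕ} (ρ : G →* Matrix (Fin n) (Fin n) ℤ) (p : Nat.Primes) {k : ℕ} (hk : 0 < k) :
    nu R ρ ((p : ℕ) ^ k) = meanPoints R ρ p k := by
  unfold nu av meanPoints
  congr 1
  refine Finset.sum_congr rfl fun g _ => ?_
  exact congrArg (fun m : ℕ => ((ρ g).trace : ℂ) * (m : ℂ)) (tw_eq R g p hk)

lemma nu_ap [Algebra.FiniteType ℤ R] {n : ℕ} (ρ : G →* Matrix (Fin n) (Fin n) ℤ) (x : ℝ) :
    Ap VirC x (nu R ρ) :=
  ap_all R cls_vir (fun c hc => ⟨c, _, 0, hc, IsCount.zero, fun n _ => by ring⟩) ρ x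

lemma nu_real {n : ℕ} (ρ : G →* Matrix (Fin n) (Fin n) ℤ) (q : ℕ) : (nu R ρ q).im = 0 := by
  unfold nu av
  have h : (∑ g : G, ((ρ g).trace : ℂ) * ((tw R g q : ℕ) : ℂ)) / (Fintype.card G : ℂ) =
      (((∑ g : G, ((ρ g).trace : ℝ) * ((tw R g q : ℕ) : ℝ)) / (Fintype.card G : ℝ) : ℝ) : ℂ) := by
    push_cast
    rfl
  rw [h]
  exact Complex.ofReal_im _

/-- the mean at the good prime powers -/
noncomputable def nuN (N : ℕ) {n : ℕ} (ρ : G →* Matrix (Fin n) (Fin n) ℤ) (q : ℕ) : ℂ :=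
  nu R ρ q * ind N q

lemma weil_nuN {N n : ℕ} {ρ : G →* Matrix (Fin n) (Fin n) ℤ} {J : Type} [Fintype J] {wt : J → ℕ}
    {A : ℕ → J → ℂ} (h : RepWeights N R ρ wt A) : Weil N (nuN R N ρ) wt A where
  norm := h.norm
  bad p k hp hN hk := by
    unfold nuN
    have : ind N (p ^ k) = 0 := by
      unfold HW3.ind
      rw [if_neg]
      intro h'
      rw [Nat.coprime_pow_left_iff hk, Nat.Prime.coprime_iff_not_dvd hp] at h'
      exact h' hN
    rw [this, mul_zero]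
  good p k hp hN hk := by
    unfold nuN
    rw [ind_good hp hN, mul_one]
    have h1 := nu_pow R ρ ⟨p, hp⟩ hk
    have h2 := h.points ⟨p, hp⟩ k hN hk
    exact h1.trans h2

lemma ind_v0 (N : ℕ) {c : ℕ → ℂ} : HW4.V0 N (fun n => c n * ind N n) := by
  intro n hn hb
  have : ind N n = 0 := if_neg fun h' => hb ⟨hn, h'⟩
  simp only [this, mul_zero]

lemma hat_of_ap {N : ℕ} {c : ℕ → ℂ} (h : ∀ x, Ap VirC x c) : HW4.Hat N (HW4.V0 N) c := by
  intro x
  obtain ⟨r, ⟨a, b, j, ha, hb, hr⟩, C, hC⟩ := h x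
  have hi : IsCount (ind N) := IsCount.coprime N
  refine ⟨r, ⟨fun n => a n * ind N n, fun n => b n * ind N n, j, ⟨ha.mul hi, ind_v0 N⟩,
    ⟨hb.mul hi, ind_v0 N⟩, fun n hn => ?_⟩, C, fun n hn => hC n hn.1⟩
  have : ind N n = 1 := if_pos hn.2
  simp only [this, mul_one]
  exact hr n hn.1

lemma hat_nuN [Algebra.FiniteType ℤ R] (N : ℕ) {n : ℕ} (ρ : G →* Matrix (Fin n) (Fin n) ℤ) :
    HW4.Hat N (HW4.V0 N) (nuN R N ρ) := by
  refine HW4.Hat.congr (hat_of_ap (nu_ap R ρ)) fun n hn => ?_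
  have : ind N n = 1 := if_pos hn.2
  unfold nuN
  rw [this, mul_one]

lemma nuN_real (N : ℕ) {n : ℕ} (ρ : G →* Matrix (Fin n) (Fin n) ℤ) {q : ℕ} (hq : Good N q) :
    (nuN R N ρ q).im = 0 := by
  have : ind N q = 1 := if_pos hq.2
  unfold nuN
  rw [this, mul_one]
  exact nu_real R ρ q

end mean

section fam

variable {N : ℕ} (F : RepFamily N) (f : MvPolynomial F.V ℤ) (hf : F.Symmetric f)

include hf

/-- **If the zeta functions of all schemes of finite type continue, then so do the `L`-functions of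
the symmetric polynomials in the eigenvalues of equivariant pure schemes.** -/
theorem rep_continues (h : ∀ X : Scheme.{0}, FiniteTypeZ X → Continues (zeta X)) :
    Continues (LPoly N F.eig f) :=
  HW4.continues_lpoly (P := HW4.V0 N) (c := fun i => nuN (F.R i) N (F.ρ i))
    (fun Y hY => h Y hY.1) (fun i => weil_nuN (F.R i) (F.weights i))
    (fun i => hat_nuN (F.R i) N (F.ρ i)) f hf

/-- **The unconditional factorisation.** -/
theorem rep_factor (K : ℝ) :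
    ∃ (Y Z : Scheme.{0}) (j : ℕ) (E : ℂ → ℂ), FiniteTypeZ Y ∧ FiniteTypeZ Z ∧
      AnalyticOnNhd ℂ E {s | K < s.re} ∧ (∀ s : ℂ, K < s.re → E s ≠ 0) ∧
      ∃ σ : ℝ, ∀ s : ℂ, σ < s.re →
        LPoly N F.eig f s * zeta Z (s + j) = E s * zeta Y (s + j) := by
  obtain ⟨Y, Z, j, E, hY, hZ, h1, h2, h3⟩ :=
    HW4.core (P := HW4.V0 N) (c := fun i => nuN (F.R i) N (F.ρ i))
      (fun i => weil_nuN (F.R i) (F.weights i)) (fun i => hat_nuN (F.R i) N (F.ρ i)) f hf K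
  exact ⟨Y, Z, j, E, hY.1, hZ.1, h1, h2, h3⟩

/-- **The moments.** -/
theorem rep_moments (h : ∀ X : Scheme.{0}, FiniteTypeZ X → Continues (zeta X)) (w : ℕ)
    (hw : ∀ m ∈ f.support, ∑ v, m v * F.wt v.1 v.2 ≤ w) :
    ∃ r : ℤ, Tendsto (fun s : ℝ => (∑' p : {p : ℕ // p.Prime ∧ ¬ p ∣ N},
      MvPolynomial.eval₂ (Int.castRingHom ℂ) (F.eig p) f *
        (p.1 : ℂ) ^ (-(((w : ℝ) / 2 + s : ℝ) : ℂ))) / (Real.log (1 / (s - 1)) : ℂ))
      (𝓝[>] 1) (𝓝 (r : ℂ)) :=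
  HW4.moments (P := HW4.V0 N) (c := fun i => nuN (F.R i) N (F.ρ i))
    (fun Y hY => h Y hY.1) (fun i => weil_nuN (F.R i) (F.weights i))
    (fun i => hat_nuN (F.R i) N (F.ρ i)) (fun i _ hn => nuN_real (F.R i) N (F.ρ i) hn) f hf w hw

end fam

end Pool.Agent.HW7
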