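import Pool.Agent.HW7.Serre
import Pool.Agent.HW7.Alg
import Pool.Agent.HW7.Inv

/-!
# Serre's `L`-functions and the zeta functions of the quotients of torus bundles
-/

set_option autoImplicit false

open AlgebraicGeometry Polynomial
open Pool.Agent.Helper29.Zeta Pool.Agent.HW Pool.Agent.HW3

namespace Pool.Agent.HW7

/-- continuation and polynomial growth -/
def MG (c : ℕ → ℂ) : Prop := Mero c ∧ Growth c

lemma MG.mul_poly {c : ℕ → ℂ} (h : MG c) (P : ℤ[X]) :
    MG (fun n => ((P.eval (n : ℤ) : ℤ) : ℂ) * c n) := by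
  refine ⟨Mero.mul_poly h.2 P h.1, ?_⟩
  have hgi : ∀ i, Growth (fun n => (P.coeff i : ℂ) * ((n : ℂ) ^ i * c n)) := fun i =>
    (Growth.const _).mul ((Growth.id.pow i).mul h.2)
  refine (Growth.sum (P.natDegree + 1) hgi).congr fun n _ => ?_
  rw [Polynomial.eval_eq_sum_range]
  push_cast
  rw [Finset.sum_mul]
  refine Finset.sum_congr rfl fun i _ => ?_
  ring

/-! ### linear combinations in the exponent -/

lemma D_zero (s : ℂ) : D (fun _ => 0) s = 0 := by
  have h := D_int_mul (fun _ => (0 : ℂ)) 0 s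
  simpa using h

lemma D_finset {T : Type*} (S : Finset T) {c : T → ℕ → ℂ} (h : ∀ t ∈ S, Growth (c t)) :
    Growth (fun n => ∑ t ∈ S, c t n) ∧ ∃ x : ℝ, ∀ s : ℂ, x < s.re →
      D (fun n => ∑ t ∈ S, c t n) s = ∑ t ∈ S, D (c t) s := by
  classical
  induction S using Finset.induction_on with
  | empty =>
    simp only [Finset.sum_empty]
    exact ⟨Growth.const 0, 0, fun s _ => D_zero s⟩
  | insert a S ha ih =>
    obtain ⟨hg, x, hx⟩ := ih fun t ht => h t (Finset.mem_insert_of_mem ht)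
    have hga := h a (Finset.mem_insert_self a S)
    have e : (fun n => ∑ t ∈ insert a S, c t n) = fun n => c a n + ∑ t ∈ S, c t n := by
      funext n; rw [Finset.sum_insert ha]
    rw [e]
    obtain ⟨x', hx'⟩ := D_add hga hg
    refine ⟨hga.add hg, max x x', fun s hs => ?_⟩
    rw [hx' s ((max_lt_iff.mp hs).2), hx s ((max_lt_iff.mp hs).1), Finset.sum_insert ha]

lemma growth_poly_mul {c : ℕ → ℂ} (hc : Growth c) (P : ℤ[X]) :
    Growth (fun n => ((P.eval (n : ℤ) : ℤ) : ℂ) * c n) := by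
  have hgi : ∀ i, Growth (fun n => (P.coeff i : ℂ) * ((n : ℂ) ^ i * c n)) := fun i =>
    (Growth.const _).mul ((Growth.id.pow i).mul hc)
  refine (Growth.sum (P.natDegree + 1) hgi).congr fun n _ => ?_
  rw [Polynomial.eval_eq_sum_range]
  push_cast
  rw [Finset.sum_mul]
  refine Finset.sum_congr rfl fun i _ => ?_
  ring

lemma D_poly {c : ℕ → ℂ} (hc : Growth c) (P : ℤ[X]) : ∃ x : ℝ, ∀ s : ℂ, x < s.re →
    D (fun n => ((P.eval (n : ℤ) : ℤ) : ℂ) * c n) s =
      ∑ k ∈ P.support, (P.coeff k : ℂ) * D c (s - k) := by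
  obtain ⟨-, x, hx⟩ := D_finset P.support
    (c := fun k n => (P.coeff k : ℂ) * ((n : ℂ) ^ k * c n))
    (fun k _ => (Growth.const _).mul ((Growth.id.pow k).mul hc))
  refine ⟨x, fun s hs => ?_⟩
  have e : (fun n : ℕ => ((P.eval (n : ℤ) : ℤ) : ℂ) * c n) =
      fun n : ℕ => ∑ k ∈ P.support, (P.coeff k : ℂ) * ((n : ℂ) ^ k * c n) := by
    funext n
    rw [Polynomial.eval_eq_sum, Polynomial.sum_def]
    push_cast
    rw [Finset.sum_mul]
    refine Finset.sum_congr rfl fun i _ => ?_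
    ring
  rw [e, hx s hs]
  refine Finset.sum_congr rfl fun k _ => ?_
  rw [D_int_mul, D_shift_pow]

lemma exp_D_poly {c : ℕ → ℂ} (hc : Growth c) (P : ℤ[X]) : ∃ x : ℝ, ∀ s : ℂ, x < s.re →
    Complex.exp (D (fun n => ((P.eval (n : ℤ) : ℤ) : ℂ) * c n) s) =
      ∏ k ∈ P.support, Complex.exp (D c (s - k)) ^ P.coeff k := by
  obtain ⟨x, hx⟩ := D_poly hc P
  refine ⟨x, fun s hs => ?_⟩
  rw [hx s hs, Complex.exp_sum]
  refine Finset.prod_congr rfl fun k _ => ?_
  rw [← Complex.exp_int_mul]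

/-! ### the means -/

section mean

variable (R : Type) [CommRing R] {G : Type} [Group G] [Fintype G] [MulSemiringAction G R]

/-- the mean of the twisted counts against a function with values in the polynomials -/
noncomputable def mn (h : G → ℤ[X]) (q : ℕ) : ℂ :=
  (∑ g : G, (((h g).eval (q : ℤ) : ℤ) : ℂ) * (tw R g q : ℂ)) / (Fintype.card G : ℂ)

lemma mn_zero (q : ℕ) : mn R (0 : G → ℤ[X]) q = 0 := by
  unfold mn
  simp

lemma mn_add (h h' : G → ℤ[X]) (q : ℕ) : mn R (h + h') q = mn R h q + mn R h' q := by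
  unfold mn
  rw [← add_div, ← Finset.sum_add_distrib]
  congr 1
  refine Finset.sum_congr rfl fun g _ => ?_
  rw [Pi.add_apply, Polynomial.eval_add]
  push_cast
  ring

lemma mn_smul (P : ℤ[X]) (h : G → ℤ[X]) (q : ℕ) :
    mn R (P • h) q = ((P.eval (q : ℤ) : ℤ) : ℂ) * mn R h q := by
  unfold mn
  rw [← mul_div_assoc, Finset.mul_sum]
  congr 1
  refine Finset.sum_congr rfl fun g _ => ?_
  rw [Pi.smul_apply, smul_eq_mul, Polynomial.eval_mul]
  push_cast
  ring

lemma mn_trf (x : Rep G) : mn R (cst' (trf x)) = av (fun g q => tw R g q) x.2 := by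
  funext q
  unfold mn av
  congr 1
  refine Finset.sum_congr rfl fun g _ => ?_
  show (((C (x.2 g).trace : ℤ[X]).eval (q : ℤ) : ℤ) : ℂ) * _ = _
  rw [Polynomial.eval_C]

/-- the counts of the quotients of torus bundles -/
noncomputable def cnt (x : Rep G) (q : ℕ) : ℂ := (Nat.card (latticeInvariants R x.2 →+* FF q) : ℂ)

variable [Algebra.FiniteType ℤ R]

lemma mn_cpf (x : Rep G) {q : ℕ} (hq : IsPrimePow q) : mn R (cpf x) q = cnt R x q := by
  have h1 := card_latticeInvariants (R := R) x.2 hq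
  have hc : (Fintype.card G : ℂ) ≠ 0 := by exact_mod_cast Fintype.card_ne_zero
  unfold mn cnt
  rw [div_eq_iff hc]
  have h2 := congrArg (fun z : ℤ => (z : ℂ)) h1
  simp only [Nat.card_eq_fintype_card (α := G)] at h2
  push_cast at h2
  rw [h2]
  refine Finset.sum_congr rfl fun g _ => ?_
  show (((x.2 g).charpoly.eval (q : ℤ) : ℤ) : ℂ) * _ = _
  ring

lemma growth_cnt (x : Rep G) : Growth (cnt R x) :=
  (isCount_of (latticeInvariants R x.2)).growth

lemma growth_mn_trf (x : Rep G) : Growth (mn R (cst' (trf x))) := by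
  rw [mn_trf]
  exact growth_av R x.2

/-- the zeta function of the quotient -/
lemma zeta_torusQuotient (x : Rep G) : ∃ σ : ℝ, ∀ s : ℂ, σ < s.re →
    zeta (torusQuotient R x.2) s = Complex.exp (D (cnt R x) s) := by
  obtain ⟨σ, hσ⟩ := zeta_scheme (isFT_spec (latticeInvariants R x.2))
  refine ⟨σ, fun s hs => ?_⟩
  have h1 : zeta (torusQuotient R x.2) s =
      zetaProd (Spec (CommRingCat.of (latticeInvariants R x.2))) s := rfl
  rw [h1, hσ s hs]
  unfold D
  rw [coef_congr (c' := cnt R x) fun n hn => ?_]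
  unfold cnt
  congr 1
  rw [← card_points_spec, card_points _ (FF n), card_FF hn]

lemma finiteType_torusQuotient (x : Rep G) : FiniteTypeZ (torusQuotient R x.2) :=
  isFT_spec (latticeInvariants R x.2)

omit [Algebra.FiniteType ℤ R] in
/-- the functions attached to the elements of a span -/
lemma mg_span {S : Set (G → ℤ[X])} (hS : ∀ h ∈ S, MG (mn R h)) {h : G → ℤ[X]}
    (hh : h ∈ Submodule.span ℤ[X] S) : MG (mn R h) := by
  induction hh using Submodule.span_induction with
  | mem h hh => exact hS h hh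
  | zero =>
    have e : mn R (0 : G → ℤ[X]) = fun _ => 0 := by funext q; exact mn_zero R q
    rw [e]
    exact ⟨mero_zero, Growth.const 0⟩
  | add h h' _ _ ih ih' =>
    have e : mn R (h + h') = fun q => mn R h q + mn R h' q := by funext q; exact mn_add R h h' q
    rw [e]
    exact ⟨Mero.add ih.2 ih'.2 ih.1 ih'.1, ih.2.add ih'.2⟩
  | smul P h _ ih =>
    have e : mn R (P • h) = fun q : ℕ => ((P.eval (q : ℤ) : ℤ) : ℂ) * mn R h q := by
      funext q; exact mn_smul R P h q
    rw [e]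
    exact ih.mul_poly P

lemma mg_cpf_iff (x : Rep G) : Continues (zeta (torusQuotient R x.2)) ↔ MG (mn R (cpf x)) := by
  have hg : Growth (mn R (cpf x)) := (growth_cnt R x).congr fun n hn => (mn_cpf R x hn).symm
  constructor
  · intro h
    exact ⟨(mero_of_continues h (zeta_torusQuotient R x)).congr
      fun n hn => (mn_cpf R x hn).symm, hg⟩
  · intro h
    exact continues_of_mero (h.1.congr fun n hn => mn_cpf R x hn) (zeta_torusQuotient R x)

lemma mg_trf_iff (x : Rep G) : Continues (LSerre R x.2) ↔ MG (mn R (cst' (trf x))) := by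
  constructor
  · intro h
    refine ⟨?_, growth_mn_trf R x⟩
    rw [mn_trf]
    exact mero_of_continues h ⟨0, fun s _ => lserre_eq R x.2 s⟩
  · intro h
    have h1 := h.1
    rw [mn_trf] at h1
    exact continues_of_mero h1 ⟨0, fun s _ => lserre_eq R x.2 s⟩

omit [Fintype G] in
lemma cpf_mem_span (x : Rep G) :
    cpf x ∈ Submodule.span ℤ[X] (Set.range fun y : Rep G => cst' (trf y)) := by
  obtain ⟨e, -, -, he⟩ := cpf_eq x
  rw [he]
  exact Submodule.sum_mem _ fun i _ => Submodule.smul_mem _ _ (Submodule.subset_span ⟨_, rfl⟩)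

end mean

/-! ### the theorem -/

/-- **the formula for a finite group** -/
theorem exists_lattices (G : Type) [Group G] [Fintype G] :
    ∃ (r : ℕ) (σ : Fin r → Rep G) (P : ℤ[X]), P.Monic ∧ ∀ x : Rep G, ∃ a : Fin r → ℤ[X],
      P • cst' (trf x) = ∑ t, a t • cpf (σ t) := by
  classical
  obtain ⟨s, P, hP, h⟩ := exists_formula G
  refine ⟨s.card, fun t => (s.equivFin.symm t).1, P, hP, fun x => ?_⟩
  have h1 : cpf '' (s : Set (Rep G)) = Set.range fun t : Fin s.card =>
      cpf ((s.equivFin.symm t).1) := by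
    ext h
    constructor
    · rintro ⟨y, hy, rfl⟩
      exact ⟨s.equivFin ⟨y, hy⟩, by simp⟩
    · rintro ⟨t, rfl⟩
      exact ⟨_, (s.equivFin.symm t).2, rfl⟩
  have h2 := h x
  rw [h1] at h2
  obtain ⟨a, ha⟩ := (Submodule.mem_span_range_iff_exists_fun _).1 h2
  exact ⟨a, ha.symm⟩

section local_

variable (R : Type) [CommRing R] [Algebra.FiniteType ℤ R] {G : Type} [Group G] [Fintype G]
  [MulSemiringAction G R]

/-- all `L`-functions continue if the zeta functions of the chosen quotients do -/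
theorem local_iff {r : ℕ} (σ : Fin r → Rep G) {P : ℤ[X]} (hP : P.Monic)
    (h : ∀ x : Rep G, ∃ a : Fin r → ℤ[X], P • cst' (trf x) = ∑ t, a t • cpf (σ t)) :
    (∀ x : Rep G, Continues (LSerre R x.2)) ↔ ∀ t, Continues (zeta (torusQuotient R (σ t).2)) := by
  constructor
  · intro h1 t
    rw [mg_cpf_iff]
    refine mg_span R ?_ (cpf_mem_span (σ t))
    rintro _ ⟨y, rfl⟩
    exact (mg_trf_iff R y).1 (h1 y)
  · intro h1 x
    rw [mg_trf_iff]
    refine ⟨?_, growth_mn_trf R x⟩
    refine Mero.of_monic (growth_mn_trf R x) hP ?_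
    have e : (fun n : ℕ => ((P.eval (n : ℤ) : ℤ) : ℂ) * mn R (cst' (trf x)) n) =
        mn R (P • cst' (trf x)) := by
      funext q; exact (mn_smul R P _ q).symm
    rw [e]
    obtain ⟨a, ha⟩ := h x
    rw [ha]
    refine (mg_span R (S := Set.range fun t => cpf (σ t)) ?_ ?_).1
    · rintro _ ⟨t, rfl⟩
      exact (mg_cpf_iff R (σ t)).1 (h1 t)
    · exact Submodule.sum_mem _ fun t _ => Submodule.smul_mem _ _ (Submodule.subset_span ⟨t, rfl⟩)

/-- the formula for the `L`-functions -/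
theorem local_formula {r : ℕ} (σ : Fin r → Rep G) {P : ℤ[X]} (x : Rep G) (a : Fin r → ℤ[X])
    (ha : P • cst' (trf x) = ∑ t, a t • cpf (σ t)) :
    ∃ y : ℝ, ∀ s : ℂ, y < s.re → ∏ k ∈ P.support, LSerre R x.2 (s - k) ^ P.coeff k =
      ∏ t, ∏ k ∈ (a t).support, zeta (torusQuotient R (σ t).2) (s - k) ^ (a t).coeff k := by
  classical
  obtain ⟨y1, hy1⟩ := exp_D_poly (growth_mn_trf R x) P
  choose y2 hy2 using fun t => exp_D_poly (growth_cnt R (σ t)) (a t)
  choose y3 hy3 using fun t => zeta_torusQuotient R (σ t)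
  obtain ⟨-, y4, hy4⟩ := D_finset Finset.univ
    (c := fun (t : Fin r) n => (((a t).eval (n : ℤ) : ℤ) : ℂ) * cnt R (σ t) n)
    (fun t _ => growth_poly_mul (growth_cnt R (σ t)) (a t))
  obtain ⟨M, hM⟩ : ∃ M : ℝ, ∀ t, y2 t ≤ M ∧ ∀ k ∈ (a t).support, y3 t + k ≤ M := by
    refine ⟨∑ t, (|y2 t| + ∑ k ∈ (a t).support, |y3 t + k|), fun t => ⟨?_, fun k hk => ?_⟩⟩
    · refine le_trans ?_ (Finset.single_le_sum (f := fun t => |y2 t| +
        ∑ k ∈ (a t).support, |y3 t + k|) (fun t _ => by positivity) (Finset.mem_univ t))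
      have h1 : (0 : ℝ) ≤ ∑ k ∈ (a t).support, |y3 t + k| := by positivity
      linarith [le_abs_self (y2 t)]
    · refine le_trans ?_ (Finset.single_le_sum (f := fun t => |y2 t| +
        ∑ k ∈ (a t).support, |y3 t + k|) (fun t _ => by positivity) (Finset.mem_univ t))
      have h1 := Finset.single_le_sum (f := fun k : ℕ => |y3 t + k|)
        (fun k _ => abs_nonneg _) hk
      have h2 := le_abs_self (y3 t + k)
      have h3 := abs_nonneg (y2 t)
      linarith
  refine ⟨max y1 (max y4 M), fun s hs => ?_⟩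
  obtain ⟨hs1, hs'⟩ := max_lt_iff.1 hs
  obtain ⟨hs4, hsM⟩ := max_lt_iff.1 hs'
  have e1 : ∀ z, LSerre R x.2 z = Complex.exp (D (mn R (cst' (trf x))) z) := by
    intro z
    rw [lserre_eq, mn_trf]
  simp only [e1]
  rw [← hy1 s hs1]
  have e2 : D (fun n : ℕ => ((P.eval (n : ℤ) : ℤ) : ℂ) * mn R (cst' (trf x)) n) s =
      D (fun n => ∑ t, (((a t).eval (n : ℤ) : ℤ) : ℂ) * cnt R (σ t) n) s := by
    unfold D
    rw [coef_congr fun n hn => ?_]
    rw [← mn_smul, ha]
    have h5 : ∀ S : Finset (Fin r), mn R (∑ t ∈ S, a t • cpf (σ t)) n =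
        ∑ t ∈ S, (((a t).eval (n : ℤ) : ℤ) : ℂ) * cnt R (σ t) n := by
      intro S
      induction S using Finset.induction_on with
      | empty => rw [Finset.sum_empty, Finset.sum_empty, mn_zero]
      | insert b S hb ih =>
        rw [Finset.sum_insert hb, Finset.sum_insert hb, mn_add, ih, mn_smul, mn_cpf R _ hn]
    exact h5 Finset.univ
  rw [e2, hy4 s hs4, Complex.exp_sum]
  refine Finset.prod_congr rfl fun t _ => ?_
  rw [hy2 t s (lt_of_le_of_lt (hM t).1 hsM)]
  refine Finset.prod_congr rfl fun k hk => ?_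
  rw [hy3 t (s - k)]
  rw [Complex.sub_re, Complex.natCast_re]
  have := (hM t).2 k hk
  linarith

end local_

/-! ### all schemes -/

/-- the trivial action -/
@[reducible] def trivAct (A : Type) [CommRing A] : MulSemiringAction Unit A where
  smul _ a := a
  one_smul _ := rfl
  mul_smul _ _ _ := rfl
  smul_zero _ := rfl
  smul_add _ _ _ := rfl
  smul_one _ := rfl
  smul_mul _ _ _ := rfl

lemma tw_triv (A : Type) [CommRing A] {q : ℕ} (hq : IsPrimePow q) :
    @tw A _ Unit _ (trivAct A) () q = Nat.card (A →+* FF q) := by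
  obtain ⟨p, k, hp', hk, rfl⟩ := hq
  have hp := hp'.nat_prime
  have : Fact p.Prime := ⟨hp⟩
  have h1 : CharP (FF (p ^ k)) p := charP_FF hp hk
  have h2 : CharP (AlgebraicClosure (FF (p ^ k))) p :=
    charP_of_injective_algebraMap (algebraMap (FF (p ^ k)) _).injective p
  rw [card_hom p (Ω := AlgebraicClosure (FF (p ^ k))) A (FF (p ^ k)), card_FF ⟨p, k, hp', hk, rfl⟩]
  rfl

lemma av_triv (A : Type) [CommRing A] {q : ℕ} (hq : IsPrimePow q) :
    letI := trivAct A
    av (fun (g : Unit) q => tw A g q) (1 : Unit →* Matrix (Fin 1) (Fin 1) ℤ) q =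
      (Nat.card (A →+* FF q) : ℂ) := by
  have h := tw_triv A hq
  unfold av
  rw [Fintype.sum_unique]
  show ((((1 : Unit →* Matrix (Fin 1) (Fin 1) ℤ) ()).trace : ℤ) : ℂ) *
    ((@tw A _ Unit _ (trivAct A) () q : ℕ) : ℂ) / (Fintype.card Unit : ℂ) = _
  rw [h]
  simp

/-- **Q1 is equivalent to the continuation of Serre's `L`-functions.** -/
theorem global_iff : (∀ X : Scheme.{0}, FiniteTypeZ X → Continues (zeta X)) ↔
    ∀ (R : Type) [CommRing R] [Algebra.FiniteType ℤ R] (G : Type) [Group G] [Fintype G]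
      [MulSemiringAction G R] (n : ℕ) (ρ : G →* Matrix (Fin n) (Fin n) ℤ),
        Continues (LSerre R ρ) := by
  constructor
  · intro h R _ _ G _ _ _ n ρ
    exact serre_continues R h ρ
  · intro h X hX
    obtain ⟨A, _, _, hA⟩ := isCount_ptCount (show Pool.Agent.Helper81.CP.IsFT X from hX)
    let _ := trivAct A
    have h1 := h A Unit 1 1
    have h2 : Mero (fun n => (HW.ptCount X n : ℂ)) := by
      refine (mero_of_continues h1 ⟨0, fun s _ => lserre_eq A _ s⟩).congr fun n hn => ?_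
      exact (av_triv A hn).trans (hA n hn).symm
    exact continues_of_mero h2 (zeta_scheme hX)

end Pool.Agent.HW7
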