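import Pool.Agent.HW7.Defs
import Pool.Agent.HW7.Art
import Pool.Agent.HW7.Lat
import Pool.Agent.HW7.Exp
import Pool.Agent.HW.Core
import Pool.Agent.HW.Brg
import Pool.Agent.HW3.Defs

/-!
# Serre's `L`-functions of rational representations
-/

set_option autoImplicit false

open AlgebraicGeometry
open Pool.Agent.Helper29.Zeta Pool.Agent.HW Pool.Agent.HW3

namespace Pool.Agent.HW7

lemma continues_of_mero {c : ℕ → ℂ} (h : Mero c) {L : ℂ → ℂ}
    (hL : ∃ σ : ℝ, ∀ s : ℂ, σ < s.re → L s = Complex.exp (D c s)) : Continues L := by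
  obtain ⟨F, hF, σ, hσ⟩ := h
  obtain ⟨τ, hτ⟩ := hL
  refine ⟨F, hF, max σ τ, fun s hs => ?_⟩
  rw [hσ s (lt_of_le_of_lt (le_max_left _ _) hs), hτ s (lt_of_le_of_lt (le_max_right _ _) hs)]

lemma mero_of_continues {c : ℕ → ℂ} {L : ℂ → ℂ} (h : Continues L)
    (hL : ∃ σ : ℝ, ∀ s : ℂ, σ < s.re → L s = Complex.exp (D c s)) : Mero c := by
  obtain ⟨F, hF, σ, hσ⟩ := h
  obtain ⟨τ, hτ⟩ := hL
  refine ⟨F, hF, max σ τ, fun s hs => ?_⟩
  rw [hσ s (lt_of_le_of_lt (le_max_left _ _) hs), hτ s (lt_of_le_of_lt (le_max_right _ _) hs)]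

/-! ### the two forms of the twisted counts -/

lemma tw_eq (R : Type) [CommRing R] {G : Type} [Group G] [MulSemiringAction G R] (g : G)
    (p : Nat.Primes) {k : ℕ} (hk : 0 < k) :
    tw R g ((p : ℕ) ^ k) = twistedPoints R g p k := by
  have hp : Fact (p : ℕ).Prime := ⟨p.2⟩
  have h1 : CharP (FF ((p : ℕ) ^ k)) p := charP_FF p.2 hk
  let _ : Algebra (ZMod p) (FF ((p : ℕ) ^ k)) := ZMod.algebra _ _
  have h3 : Algebra.IsAlgebraic (ZMod p) (FF ((p : ℕ) ^ k)) :=
    Algebra.IsAlgebraic.of_finite _ _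
  have h4 : Algebra.IsAlgebraic (ZMod p) (AlgebraicClosure (FF ((p : ℕ) ^ k))) :=
    Algebra.IsAlgebraic.trans (ZMod p) (FF ((p : ℕ) ^ k)) _
  have h5 : IsAlgClosure (ZMod p) (AlgebraicClosure (FF ((p : ℕ) ^ k))) := ⟨inferInstance, h4⟩
  let e : AlgebraicClosure (FF ((p : ℕ) ^ k)) ≃ₐ[ZMod p] AlgebraicClosure (ZMod p) :=
    IsAlgClosure.equiv (ZMod p) _ _
  unfold tw twistedPoints
  refine Nat.card_congr
    { toFun := fun y => ⟨(e : AlgebraicClosure (FF ((p : ℕ) ^ k)) →+* _).comp y.1, fun r => ?_⟩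
      invFun := fun y => ⟨(e.symm : AlgebraicClosure (ZMod p) →+* _).comp y.1, fun r => ?_⟩
      left_inv := fun y => ?_
      right_inv := fun y => ?_ }
  · show e (y.1 r) ^ _ = e (y.1 (g • r))
    rw [← map_pow, y.2 r]
  · show e.symm (y.1 r) ^ _ = e.symm (y.1 (g • r))
    rw [← map_pow, y.2 r]
  · refine Subtype.ext (RingHom.ext fun r => ?_)
    exact e.symm_apply_apply _
  · refine Subtype.ext (RingHom.ext fun r => ?_)
    exact e.apply_symm_apply _

lemma lserre_eq (R : Type) [CommRing R] {G : Type} [Group G] [Fintype G]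
    [MulSemiringAction G R] {n : ℕ} (ρ : G →* Matrix (Fin n) (Fin n) ℤ) (s : ℂ) :
    LSerre R ρ s = Complex.exp (D (av (fun g q => tw R g q) ρ) s) := by
  rw [D_eq]
  unfold LSerre
  congr 1
  refine tsum_congr fun x => ?_
  unfold av meanPoints
  congr 3
  refine Finset.sum_congr rfl fun g _ => ?_
  exact congrArg (fun m : ℕ => ((ρ g).trace : ℂ) * (m : ℂ)) (tw_eq R g x.1 x.2.succ_pos).symm

/-! ### differences of counts -/

/-- differences of counting functions divided by powers of `n` -/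
def VirC (c : ℕ → ℂ) : Prop :=
  ∃ (a b : ℕ → ℂ) (j : ℕ), IsCount a ∧ IsCount b ∧
    ∀ n : ℕ, IsPrimePow n → (n : ℂ) ^ j * c n = a n - b n

lemma isCount_qpow {c : ℕ → ℂ} (h : IsCount c) (j : ℕ) : IsCount (fun n => (n : ℂ) ^ j * c n) := by
  induction j with
  | zero => exact h.congr fun n _ => by rw [pow_zero, one_mul]
  | succ j ih =>
    refine (IsCount.q.mul ih).congr fun n _ => ?_
    ring

lemma cls_vir : Cls VirC where
  congr c c' h hc := by
    obtain ⟨a, b, j, ha, hb, H⟩ := hc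
    exact ⟨a, b, j, ha, hb, fun n hn => by rw [h n hn]; exact H n hn⟩
  zero := ⟨_, _, 0, IsCount.zero, IsCount.zero, fun n _ => by ring⟩
  add c c' h h' := by
    obtain ⟨a, b, j, ha, hb, H⟩ := h
    obtain ⟨a', b', j', ha', hb', H'⟩ := h'
    refine ⟨_, _, j + j', (isCount_qpow ha j').add (isCount_qpow ha' j),
      (isCount_qpow hb j').add (isCount_qpow hb' j), fun n hn => ?_⟩
    have e : (n : ℂ) ^ (j + j') * (c n + c' n) =
      (n : ℂ) ^ j' * ((n : ℂ) ^ j * c n) + (n : ℂ) ^ j * ((n : ℂ) ^ j' * c' n) := by ring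
    rw [e, H n hn, H' n hn]; ring
  neg c h := by
    obtain ⟨a, b, j, ha, hb, H⟩ := h
    exact ⟨b, a, j, hb, ha, fun n hn => by rw [mul_neg, H n hn]; ring⟩
  shift c h := by
    obtain ⟨a, b, j, ha, hb, H⟩ := h
    refine ⟨_, _, j, isCount_qpow ha 1, isCount_qpow hb 1, fun n hn => ?_⟩
    have e : (n : ℂ) ^ j * ((n : ℂ) * c n) = (n : ℂ) * ((n : ℂ) ^ j * c n) := by ring
    rw [e, H n hn]; ring
  unshift c h := by
    obtain ⟨a, b, j, ha, hb, H⟩ := h
    refine ⟨a, b, j + 1, ha, hb, fun n hn => ?_⟩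
    rw [← H n hn]; ring

/-! ### the input of the recursion -/

section input

variable (R : Type) [CommRing R] [Algebra.FiniteType ℤ R] {G : Type} [Group G] [Fintype G]
  [MulSemiringAction G R]

lemma input_count {P : (ℕ → ℂ) → Prop} (hP : Cls P) (h : ∀ c, IsCount c → P c) (n : ℕ)
    (ρ : G →* Matrix (Fin n) (Fin n) ℤ) :
    P (fun q => ((∑ g : G, (tw R g q : ℤ) * (ρ g).charpoly.eval (q : ℤ) : ℤ) : ℂ) /
        (Fintype.card G : ℂ)) := by
  obtain ⟨A, _, _, hA⟩ := lat_count R G ρ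
  refine hP.congr _ _ (fun q hq => ?_) (h _ (isCount_of A))
  have hc : (Fintype.card G : ℂ) ≠ 0 := by exact_mod_cast Fintype.card_ne_zero
  rw [← hA q hq, div_eq_iff hc, Nat.card_eq_fintype_card (α := G)]
  push_cast
  rfl

lemma input_one {P : (ℕ → ℂ) → Prop} (hP : Cls P) (h : ∀ c, IsCount c → P c) :
    P (av (fun g q => tw R g q) (1 : G →* Matrix (Fin 1) (Fin 1) ℤ)) := by
  have hft : Algebra.FiniteType ℤ (FixedPoints.subring R G) :=
    Pool.Agent.HW3.finiteType_inv (R := R) (G := G)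
  refine hP.congr _ _ (fun q hq => ?_) (h _ (isCount_of (FixedPoints.subring R G)))
  have hc : (Fintype.card G : ℂ) ≠ 0 := by exact_mod_cast Fintype.card_ne_zero
  unfold av
  have h1 := card_inv_tw R G hq
  rw [div_eq_iff hc]
  have h2 : ((∑ g : G, tw R g q : ℕ) : ℂ) = ((Nat.card (FixedPoints.subring R G →+* FF q) *
    Nat.card G : ℕ) : ℂ) := by rw [h1]
  rw [Nat.card_eq_fintype_card (α := G)] at h2
  push_cast at h2
  rw [← h2]
  refine Finset.sum_congr rfl fun g _ => ?_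
  simp [Matrix.trace]

/-- approximation by classes -/
theorem ap_all {P : (ℕ → ℂ) → Prop} (hP : Cls P) (h : ∀ c, IsCount c → P c) {n : ℕ}
    (ρ : G →* Matrix (Fin n) (Fin n) ℤ) (x : ℝ) : Ap P x (av (fun g q => tw R g q) ρ) := by
  obtain ⟨C, K, hT⟩ := tw_le R G
  have h1 := recursion hP (fun g q => tw R g q) (input_one R hP h) (input_count R hP h)
    (C := C) (K := K) hT (⌈(K : ℝ) - x⌉₊) n ρ
  refine h1.mono ?_
  have := Nat.le_ceil ((K : ℝ) - x)
  linarith

lemma growth_av {n : ℕ} (ρ : G →* Matrix (Fin n) (Fin n) ℤ) :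
    Growth (av (fun g q => tw R g q) ρ) := by
  obtain ⟨C, K, hT⟩ := tw_le R G
  refine ⟨(∑ g : G, ‖((ρ g).trace : ℂ)‖ * C) / (Fintype.card G : ℝ), K, fun q hq => ?_⟩
  unfold av
  rw [norm_div, Complex.norm_natCast, div_mul_eq_mul_div]
  refine div_le_div_of_nonneg_right ?_ (by positivity)
  rw [Finset.sum_mul]
  refine (norm_sum_le _ _).trans (Finset.sum_le_sum fun g _ => ?_)
  rw [norm_mul, Complex.norm_natCast, mul_assoc]
  refine mul_le_mul_of_nonneg_left ?_ (norm_nonneg _)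
  exact_mod_cast hT q hq g

/-- **If the zeta functions of all schemes of finite type continue, then so do Serre's
`L`-functions of rational representations.** -/
theorem serre_continues (h : ∀ X : Scheme.{0}, FiniteTypeZ X → Continues (zeta X)) {n : ℕ}
    (ρ : G →* Matrix (Fin n) (Fin n) ℤ) : Continues (LSerre R ρ) := by
  have hm : ∀ c, IsCount c → Mero c ∧ Growth c := by
    intro c hc
    refine ⟨?_, hc.growth⟩
    obtain ⟨A, _, hA, -, hz⟩ := exists_scheme_count hc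
    exact mero_of_continues (h _ hA) hz
  refine continues_of_mero (c := av (fun g q => tw R g q) ρ) ?_
    ⟨0, fun s _ => lserre_eq R ρ s⟩
  refine mero_of_approx (growth_av R ρ) (fun K => ?_)
  obtain ⟨r, hr, C, hC⟩ := ap_all R cls_mero hm ρ (-(K : ℝ))
  exact ⟨r, hr.1, hr.2, C, hC⟩

/-- **The unconditional factorisation.** -/
theorem serre_factor {n : ℕ} (ρ : G →* Matrix (Fin n) (Fin n) ℤ) (K : ℝ) :
    ∃ (Y Z : Scheme.{0}) (j : ℕ) (E : ℂ → ℂ), FiniteTypeZ Y ∧ FiniteTypeZ Z ∧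
      AnalyticOnNhd ℂ E {s | K < s.re} ∧ (∀ s, E s ≠ 0) ∧
      ∃ σ : ℝ, ∀ s : ℂ, σ < s.re → LSerre R ρ s * zeta Z (s + j) = E s * zeta Y (s + j) := by
  obtain ⟨r, ⟨a, b, j, ha, hb, hr⟩, C, hC⟩ := ap_all R cls_vir
    (fun c hc => ⟨c, _, 0, hc, IsCount.zero, fun n _ => by ring⟩) ρ (K - 1)
  obtain ⟨E, hE, hE0, σ, hσ⟩ := core_step (growth_av R ρ) ha.growth hb.growth j (C := |C|)
    (θ := K - 1) (by
      intro n hn
      rw [← hr n hn, ← mul_sub, norm_mul, norm_pow, Complex.norm_natCast, Real.rpow_add (npos hn),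
        Real.rpow_natCast]
      calc (n : ℝ) ^ j * ‖av (fun g q => tw R g q) ρ n - r n‖
          ≤ (n : ℝ) ^ j * (|C| * (n : ℝ) ^ (K - 1)) := by
            refine mul_le_mul_of_nonneg_left ((hC n hn).trans ?_) (by positivity)
            exact mul_le_mul_of_nonneg_right (le_abs_self C) (Real.rpow_nonneg (npos hn).le _)
        _ = _ := by ring)
  obtain ⟨A, _, hA, -, σ1, hσ1⟩ := exists_scheme_count ha
  obtain ⟨B, _, hB, -, σ2, hσ2⟩ := exists_scheme_count hb
  refine ⟨Spec (CommRingCat.of A), Spec (CommRingCat.of B), j, E, hA, hB, ?_, hE0,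
    max σ (max σ1 σ2), fun s hs => ?_⟩
  · have e : {s : ℂ | K - 1 + 1 < s.re} = {s : ℂ | K < s.re} := by
      ext s; simp
    rw [← e]; exact hE
  · obtain ⟨h0, h3⟩ := max_lt_iff.1 hs
    obtain ⟨h1, h2⟩ := max_lt_iff.1 h3
    have hj : (0 : ℝ) ≤ j := Nat.cast_nonneg j
    have h1' : σ1 < (s + j).re := by rw [Complex.add_re, Complex.natCast_re]; linarith
    have h2' : σ2 < (s + j).re := by rw [Complex.add_re, Complex.natCast_re]; linarith
    have e1 : zeta (Spec (CommRingCat.of A)) (s + j) = Complex.exp (D a (s + j)) := hσ1 _ h1'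
    have e2 : zeta (Spec (CommRingCat.of B)) (s + j) = Complex.exp (D b (s + j)) := hσ2 _ h2'
    rw [lserre_eq, e1, e2, hσ s h0]

end input

end Pool.Agent.HW7
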