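import Pool.Agent.HW7.Orb
import Pool.Agent.HW.Brg

/-!
# Twisted point counts
-/

set_option autoImplicit false

open Pool.Agent.HW Pool.Agent.Helper29.Zeta

namespace Pool.Agent.HW7

/-- the number of geometric points on which the Frobenius acts as `g` -/
noncomputable def tw (R : Type) [CommRing R] {G : Type} [Group G] [MulSemiringAction G R] (g : G)
    (q : ℕ) : ℕ :=
  Nat.card {y : R →+* AlgebraicClosure (FF q) // ∀ r, y r ^ q = y (g • r)}

lemma charP_FF {p k : ℕ} (hp : p.Prime) (hk : 0 < k) : CharP (FF (p ^ k)) p := by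
  have : Fact p.Prime := ⟨hp⟩
  have := Fintype.ofFinite (FF (p ^ k))
  refine charP_of_card_eq_prime_pow (f := k) ?_
  rw [← Nat.card_eq_fintype_card]
  exact card_FF ⟨p, k, hp.prime, hk, rfl⟩

/-- **the points of the quotient** -/
theorem card_inv_tw (R : Type) [CommRing R] [Algebra.FiniteType ℤ R] (G : Type) [Group G]
    [Fintype G] [MulSemiringAction G R] {q : ℕ} (hq : IsPrimePow q) :
    Nat.card (FixedPoints.subring R G →+* FF q) * Nat.card G = ∑ g : G, tw R g q := by
  obtain ⟨p, k, hp', hk, rfl⟩ := hq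
  have hp := hp'.nat_prime
  have : Fact p.Prime := ⟨hp⟩
  have h1 : CharP (FF (p ^ k)) p := charP_FF hp hk
  have h2 : CharP (AlgebraicClosure (FF (p ^ k))) p :=
    charP_of_injective_algebraMap (algebraMap (FF (p ^ k)) _).injective p
  exact (card_inv p (Ω := AlgebraicClosure (FF (p ^ k))) (R := R) (G := G) hk (FF (p ^ k))
    (card_FF ⟨p, k, hp', hk, rfl⟩)).symm

/-- twisted point counts have polynomial growth -/
theorem tw_le (R : Type) [CommRing R] [Algebra.FiniteType ℤ R] (G : Type) [Group G]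
    [Finite G] [MulSemiringAction G R] :
    ∃ C K : ℕ, ∀ q : ℕ, IsPrimePow q → ∀ g : G, tw R g q ≤ C * q ^ K := by
  obtain ⟨C, a, hC⟩ := (isCount_of R).growth
  refine ⟨⌈C⌉₊, Nat.card G * a, fun q hq g => ?_⟩
  obtain ⟨p, k, hp', hk, rfl⟩ := hq
  have hp := hp'.nat_prime
  have : Fact p.Prime := ⟨hp⟩
  have h1 : CharP (FF (p ^ k)) p := charP_FF hp hk
  have h2 : CharP (AlgebraicClosure (FF (p ^ k))) p :=
    charP_of_injective_algebraMap (algebraMap (FF (p ^ k)) _).injective p
  have hG : 0 < Nat.card G := Nat.card_pos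
  have hkG : 0 < k * Nat.card G := Nat.mul_pos hk hG
  have hpp : IsPrimePow (p ^ (k * Nat.card G)) := ⟨p, _, hp', hkG, rfl⟩
  have h3 : CharP (FF (p ^ (k * Nat.card G))) p := charP_FF hp hkG
  have h4 := hC _ hpp
  have h5 := card_hom p (Ω := AlgebraicClosure (FF (p ^ k))) R (FF (p ^ (k * Nat.card G)))
  have hfin : Finite {y : R →+* AlgebraicClosure (FF (p ^ k)) //
      ∀ b, y b ^ Nat.card (FF (p ^ (k * Nat.card G))) = y b} := by
    obtain ⟨i⟩ := exists_emb p (Ω := AlgebraicClosure (FF (p ^ k))) (FF (p ^ (k * Nat.card G)))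
    have : Finite (R →+* FF (p ^ (k * Nat.card G))) := finite_hom R _
    exact Finite.of_equiv _ (homEquiv R i)
  have h6 : tw R g (p ^ k) ≤ Nat.card (R →+* FF (p ^ (k * Nat.card G))) := by
    rw [h5]
    refine Nat.card_le_card_of_injective (fun y => ⟨y.1, fun b => ?_⟩) ?_
    · rw [card_FF hpp, pow_mul, pow_twist y.1 g y.2, pow_card_eq_one', one_smul]
    · intro y z h
      have h' := congrArg Subtype.val h
      exact Subtype.ext h'
  have h7 : ((tw R g (p ^ k) : ℕ) : ℝ) ≤ C * ((p ^ (k * Nat.card G) : ℕ) : ℝ) ^ a := by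
    refine le_trans ?_ h4
    rw [Complex.norm_natCast]
    exact_mod_cast h6
  have h8 : ((tw R g (p ^ k) : ℕ) : ℝ) ≤ ((⌈C⌉₊ * (p ^ k) ^ (Nat.card G * a) : ℕ) : ℝ) := by
    refine h7.trans ?_
    push_cast
    have h9 : ((p : ℝ) ^ (k * Nat.card G)) ^ a = ((p : ℝ) ^ k) ^ (Nat.card G * a) := by
      rw [← pow_mul, ← pow_mul, mul_assoc]
    rw [h9]
    gcongr
    exact Nat.le_ceil C
  exact_mod_cast h8

end Pool.Agent.HW7
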